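import Mathlib

/-!
MP_40554b_lc: `k`-page migration on the uniform space with `k+1` points, algorithms with finite
memory. Definitions and basic cost estimates.
-/

set_option autoImplicit false

open Finset Function

namespace Pool.Agent.H40.PM

/-- Positions of the `k` pages in the space `Fin (k+1)` (several pages may share a point). -/
abbrev Conf (k : ℕ) : Type := Fin k → Fin (k + 1)

variable {k : ℕ}

/-- The uniform metric on the `k+1` points. -/
noncomputable def dst (x y : Fin (k + 1)) : ℝ := if x = y then 0 else 1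

/-- Service cost: the distance of the request `r` to the nearest page. -/
noncomputable def serv (c : Conf k) (r : Fin (k + 1)) : ℝ := ⨅ i, dst (c i) r

/-- Total distance moved by the pages. -/
noncomputable def mv (c c' : Conf k) : ℝ := ∑ i, dst (c i) (c' i)

/-- Optimal offline cost of a request list from the configuration `c` (dynamic programming: the
request `r` is served from `c`, then the pages may be moved to any configuration `c'`). -/
noncomputable def opt (D : ℝ) : Conf k → List (Fin (k + 1)) → ℝ
  | _, [] => 0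
  | c, r :: σ => serv c r + ⨅ c' : Conf k, (D * mv c c' + opt D c' σ)

/-- A randomized online algorithm for `k` pages on `Fin (k+1)` with the finite set `S` of memory
states: `step t z r z'` is the probability that the algorithm, which is in the state
`z = (positions, memory)` before the request number `t` and receives the request `r`, goes
to the state `z'`. -/
structure Alg (k : ℕ) (S : Type) [Fintype S] where
  /-- transition probabilities -/
  step : ℕ → Conf k × S → Fin (k + 1) → Conf k × S → ℝ
  step_nonneg : ∀ t z r z', 0 ≤ step t z r z'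
  step_sum : ∀ t z r, ∑ z', step t z r z' = 1

variable {S : Type} [Fintype S]

/-- Expected total cost (service plus `D` times movement) of the algorithm on a request list,
started at time `t` in the state `z`. -/
noncomputable def ecost (A : Alg k S) (D : ℝ) : ℕ → Conf k × S → List (Fin (k + 1)) → ℝ
  | _, _, [] => 0
  | t, z, r :: σ => serv z.1 r +
      ∑ z', A.step t z r z' * (D * mv z.1 z'.1 + ecost A D (t + 1) z' σ)

/-! ### elementary facts -/

theorem dst_nonneg (x y : Fin (k + 1)) : 0 ≤ dst x y := by
  unfold dst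
  split_ifs <;> norm_num

theorem dst_le_one (x y : Fin (k + 1)) : dst x y ≤ 1 := by
  unfold dst
  split_ifs <;> norm_num

theorem dst_self (x : Fin (k + 1)) : dst x x = 0 := by
  unfold dst
  simp

theorem dst_triangle (x y z : Fin (k + 1)) : dst x z ≤ dst x y + dst y z := by
  unfold dst
  by_cases h1 : x = y
  · subst h1
    simp
  · by_cases h2 : y = z
    · subst h2
      simp
    · simp only [h1, h2, if_false]
      split_ifs <;> norm_num

theorem serv_nonneg (c : Conf k) (r : Fin (k + 1)) : 0 ≤ serv c r :=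
  Real.iInf_nonneg fun _ => dst_nonneg _ _

theorem serv_eq_zero {c : Conf k} {r : Fin (k + 1)} (h : ∃ i, c i = r) : serv c r = 0 := by
  obtain ⟨i, hi⟩ := h
  apply le_antisymm _ (serv_nonneg c r)
  have h2 : serv c r ≤ dst (c i) r := ciInf_le ⟨0, by rintro _ ⟨j, rfl⟩; exact dst_nonneg _ _⟩ i
  rw [hi, dst_self] at h2
  exact h2

theorem serv_eq_one (hk : 0 < k) {c : Conf k} {r : Fin (k + 1)} (h : ¬ ∃ i, c i = r) :
    serv c r = 1 := by
  unfold serv
  have : Nonempty (Fin k) := ⟨⟨0, hk⟩⟩
  have h2 : ∀ i, dst (c i) r = 1 := by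
    intro i
    unfold dst
    rw [if_neg]
    intro h3
    exact h ⟨i, h3⟩
  simp [h2]

theorem serv_le_one (c : Conf k) (r : Fin (k + 1)) : serv c r ≤ 1 := by
  by_cases h : ∃ i, c i = r
  · rw [serv_eq_zero h]
    norm_num
  · rcases Nat.eq_zero_or_pos k with hk | hk
    · subst hk
      unfold serv
      rw [Real.iInf_of_isEmpty]
      norm_num
    · rw [serv_eq_one hk h]

theorem mv_nonneg (c c' : Conf k) : 0 ≤ mv c c' := Finset.sum_nonneg fun _ _ => dst_nonneg _ _

theorem mv_self (c : Conf k) : mv c c = 0 := by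
  unfold mv
  exact Finset.sum_eq_zero fun i _ => dst_self _

theorem mv_triangle (c c' c'' : Conf k) : mv c c'' ≤ mv c c' + mv c' c'' := by
  unfold mv
  rw [← Finset.sum_add_distrib]
  exact Finset.sum_le_sum fun i _ => dst_triangle _ _ _

theorem mv_le (c c' : Conf k) : mv c c' ≤ k := by
  unfold mv
  calc ∑ i, dst (c i) (c' i) ≤ ∑ _i : Fin k, (1 : ℝ) := Finset.sum_le_sum fun i _ => dst_le_one _ _
    _ = k := by simp

/-- number of moved pages -/
def hm (c c' : Conf k) : ℕ := (univ.filter fun i => c i ≠ c' i).card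

theorem mv_eq (c c' : Conf k) : mv c c' = (hm c c' : ℝ) := by
  unfold mv hm dst
  rw [Finset.card_filter]
  push_cast
  apply Finset.sum_congr rfl
  intro i _
  by_cases h : c i = c' i <;> simp [h]

theorem one_le_mv {c c' : Conf k} {p : Fin (k + 1)} (h : ¬ ∃ i, c i = p) (h' : ∃ i, c' i = p) :
    1 ≤ mv c c' := by
  obtain ⟨i, hi⟩ := h'
  unfold mv
  have h2 : dst (c i) (c' i) = 1 := by
    unfold dst
    rw [if_neg]
    intro h3
    exact h ⟨i, h3.trans hi⟩
  rw [← h2]
  exact Finset.single_le_sum (f := fun i => dst (c i) (c' i)) (fun j _ => dst_nonneg _ _)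
    (Finset.mem_univ i)

/-! ### the optimal cost -/

theorem opt_nil (D : ℝ) (c : Conf k) : opt D c [] = 0 := by rw [opt]

theorem opt_cons (D : ℝ) (c : Conf k) (r : Fin (k + 1)) (σ : List (Fin (k + 1))) :
    opt D c (r :: σ) = serv c r + ⨅ c' : Conf k, (D * mv c c' + opt D c' σ) := by rw [opt]

theorem opt_cons_le {D : ℝ} (c c' : Conf k) (r : Fin (k + 1)) (σ : List (Fin (k + 1))) :
    opt D c (r :: σ) ≤ serv c r + (D * mv c c' + opt D c' σ) := by
  rw [opt_cons]
  have h2 : ⨅ c' : Conf k, (D * mv c c' + opt D c' σ) ≤ D * mv c c' + opt D c' σ :=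
    ciInf_le (Set.finite_range _).bddBelow c'
  linarith

theorem opt_cons_exists (D : ℝ) (c : Conf k) (r : Fin (k + 1)) (σ : List (Fin (k + 1))) :
    ∃ c' : Conf k, opt D c (r :: σ) = serv c r + (D * mv c c' + opt D c' σ) := by
  obtain ⟨c', hc'⟩ := exists_eq_ciInf_of_finite (f := fun c' : Conf k => D * mv c c' + opt D c' σ)
  exact ⟨c', by rw [opt_cons, ← hc']⟩

theorem opt_nonneg {D : ℝ} (hD : 0 ≤ D) (σ : List (Fin (k + 1))) : ∀ c : Conf k, 0 ≤ opt D c σ := by
  induction σ with
  | nil => intro c; rw [opt_nil]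
  | cons r σ ih =>
    intro c
    obtain ⟨c', hc'⟩ := opt_cons_exists D c r σ
    rw [hc']
    have h1 := serv_nonneg c r
    have h2 := mul_nonneg hD (mv_nonneg c c')
    have h3 := ih c'
    linarith

/-- changing the initial configuration -/
theorem opt_lip {D : ℝ} (hD : 0 ≤ D) (σ : List (Fin (k + 1))) (c c' : Conf k) :
    opt D c σ ≤ 1 + D * mv c c' + opt D c' σ := by
  cases σ with
  | nil =>
    rw [opt_nil, opt_nil]
    have := mul_nonneg hD (mv_nonneg c c')
    linarith
  | cons r σ =>
    obtain ⟨c'', hc''⟩ := opt_cons_exists D c' r σ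
    rw [hc'']
    have h1 := opt_cons_le (D := D) c c'' r σ
    have h2 := mul_le_mul_of_nonneg_left (mv_triangle c c' c'') hD
    have h3 := serv_le_one c r
    have h4 := serv_nonneg c' r
    linarith

/-- all points except `q` are covered -/
def Cov (c : Conf k) (q : Fin (k + 1)) : Prop := ∀ p, p ≠ q → ∃ i, c i = p

theorem opt_stay {D : ℝ} {c : Conf k} {q : Fin (k + 1)} (hc : Cov c q) (σ : List (Fin (k + 1)))
    (l : List (Fin (k + 1))) (hl : q ∉ l) : opt D c (l ++ σ) ≤ opt D c σ := by
  induction l with
  | nil => simp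
  | cons r l ih =>
    rw [List.cons_append]
    have h1 := opt_cons_le (D := D) c c r (l ++ σ)
    rw [mv_self, serv_eq_zero (hc r (fun h => hl (by rw [h]; exact List.mem_cons_self)))] at h1
    have h2 := ih (fun h => hl (List.mem_cons_of_mem _ h))
    linarith

theorem Cov.inj {c : Conf k} {q q' : Fin (k + 1)} (h : Cov c q) (h' : Cov c q') : q = q' := by
  by_contra hne
  have hs : Surjective c := by
    intro p
    by_cases hp : p = q
    · exact h' p (by rw [hp]; exact hne)
    · exact h p hp
  have := Fintype.card_le_of_surjective c hs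
  simp at this

theorem exists_cov (q : Fin (k + 1)) : ∃ c : Conf k, Cov c q :=
  ⟨fun i => q.succAbove i, fun p hp => by
    obtain ⟨i, hi⟩ := Fin.exists_succAbove_eq hp
    exact ⟨i, hi⟩⟩

theorem exists_cov_near {c : Conf k} {q : Fin (k + 1)} (h : Cov c q) (q' : Fin (k + 1)) :
    ∃ c' : Conf k, Cov c' q' ∧ mv c c' ≤ 1 := by
  by_cases hq : q' = q
  · subst hq
    exact ⟨c, h, by rw [mv_self]; norm_num⟩
  · obtain ⟨i, hi⟩ := h q' hq
    refine ⟨update c i q, ?_, ?_⟩
    · intro p hp
      by_cases hpq : p = q
      · exact ⟨i, by rw [update_self, hpq]⟩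
      · obtain ⟨j, hj⟩ := h p hpq
        refine ⟨j, ?_⟩
        rw [update_of_ne, hj]
        intro hji
        apply hp
        rw [← hj, hji, hi]
    · unfold mv
      rw [Finset.sum_eq_single i]
      · exact dst_le_one _ _
      · intro j _ hj
        rw [update_of_ne hj, dst_self]
      · intro hh
        exact absurd (Finset.mem_univ _) hh

/-! ### the cost of the algorithm -/

theorem ecost_nil (A : Alg k S) (D : ℝ) (t : ℕ) (z : Conf k × S) : ecost A D t z [] = 0 := by
  rw [ecost]

theorem ecost_cons (A : Alg k S) (D : ℝ) (t : ℕ) (z : Conf k × S) (r : Fin (k + 1))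
    (σ : List (Fin (k + 1))) : ecost A D t z (r :: σ) = serv z.1 r +
      ∑ z', A.step t z r z' * (D * mv z.1 z'.1 + ecost A D (t + 1) z' σ) := by
  rw [ecost]

theorem ecost_nonneg (A : Alg k S) {D : ℝ} (hD : 0 ≤ D) (σ : List (Fin (k + 1))) :
    ∀ t z, 0 ≤ ecost A D t z σ := by
  induction σ with
  | nil => intro t z; rw [ecost_nil]
  | cons r σ ih =>
    intro t z
    rw [ecost_cons]
    apply add_nonneg (serv_nonneg _ _)
    apply Finset.sum_nonneg
    intro z' _
    exact mul_nonneg (A.step_nonneg _ _ _ _)
      (add_nonneg (mul_nonneg hD (mv_nonneg _ _)) (ih _ _))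

/-- transition probabilities for a list of requests -/
noncomputable def Ker (A : Alg k S) : ℕ → List (Fin (k + 1)) → Conf k × S → Conf k × S → ℝ
  | _, [], z, z' => by classical exact if z' = z then 1 else 0
  | t, r :: l, z, z' => ∑ z₁, A.step t z r z₁ * Ker A (t + 1) l z₁ z'

theorem Ker_nonneg (A : Alg k S) (l : List (Fin (k + 1))) : ∀ t z z', 0 ≤ Ker A t l z z' := by
  induction l with
  | nil => intro t z z'; simp only [Ker]; split_ifs <;> norm_num
  | cons r l ih =>
    intro t z z'
    simp only [Ker]
    exact Finset.sum_nonneg fun z₁ _ => mul_nonneg (A.step_nonneg _ _ _ _) (ih _ _ _)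

theorem Ker_sum (A : Alg k S) (l : List (Fin (k + 1))) : ∀ t z, ∑ z', Ker A t l z z' = 1 := by
  induction l with
  | nil => intro t z; simp [Ker]
  | cons r l ih =>
    intro t z
    simp only [Ker]
    rw [Finset.sum_comm]
    calc ∑ z₁, ∑ z', A.step t z r z₁ * Ker A (t + 1) l z₁ z'
        = ∑ z₁, A.step t z r z₁ := by
          apply Finset.sum_congr rfl
          intro z₁ _
          rw [← Finset.mul_sum, ih, mul_one]
      _ = 1 := A.step_sum _ _ _

theorem ecost_append (A : Alg k S) (D : ℝ) (σ : List (Fin (k + 1))) (l : List (Fin (k + 1))) :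
    ∀ t z, ecost A D t z (l ++ σ) = ecost A D t z l +
      ∑ z', Ker A t l z z' * ecost A D (t + l.length) z' σ := by
  induction l with
  | nil =>
    intro t z
    simp [Ker, ecost_nil]
  | cons r l ih =>
    intro t z
    rw [List.cons_append, ecost_cons, ecost_cons]
    have h1 : ∀ z₁, A.step t z r z₁ * (D * mv z.1 z₁.1 + ecost A D (t + 1) z₁ (l ++ σ)) =
        A.step t z r z₁ * (D * mv z.1 z₁.1 + ecost A D (t + 1) z₁ l) +
        ∑ z', A.step t z r z₁ * Ker A (t + 1) l z₁ z' *
          ecost A D (t + (r :: l).length) z' σ := by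
      intro z₁
      rw [ih (t + 1) z₁, List.length_cons]
      have e1 : ∀ z', A.step t z r z₁ * Ker A (t + 1) l z₁ z' *
          ecost A D (t + (l.length + 1)) z' σ = A.step t z r z₁ * (Ker A (t + 1) l z₁ z' *
          ecost A D (t + 1 + l.length) z' σ) := by
        intro z'
        have : t + (l.length + 1) = t + 1 + l.length := by ring
        rw [this]
        ring
      rw [Finset.sum_congr rfl (fun z' _ => e1 z'), ← Finset.mul_sum]
      ring
    rw [Finset.sum_congr rfl (fun z₁ _ => h1 z₁), Finset.sum_add_distrib, Finset.sum_comm]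
    have h2 : ∀ z', ∑ z₁, A.step t z r z₁ * Ker A (t + 1) l z₁ z' *
          ecost A D (t + (r :: l).length) z' σ = Ker A t (r :: l) z z' *
          ecost A D (t + (r :: l).length) z' σ := by
      intro z'
      rw [← Finset.sum_mul]
      rfl
    rw [Finset.sum_congr rfl (fun z' _ => h2 z')]
    ring

theorem ecost_ge_move (A : Alg k S) {D : ℝ} (hD : 0 ≤ D) (l : List (Fin (k + 1))) :
    ∀ t z, D * ∑ z', Ker A t l z z' * mv z.1 z'.1 ≤ ecost A D t z l := by
  induction l with
  | nil =>
    intro t z
    rw [ecost_nil, Finset.sum_eq_zero, mul_zero]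
    intro z' _
    simp only [Ker]
    split_ifs with h
    · rw [h, mv_self, mul_zero]
    · rw [zero_mul]
  | cons r l ih =>
    intro t z
    rw [ecost_cons]
    have h1 : D * ∑ z', Ker A t (r :: l) z z' * mv z.1 z'.1 =
        ∑ z₁, A.step t z r z₁ * (D * ∑ z', Ker A (t + 1) l z₁ z' * mv z.1 z'.1) := by
      simp only [Ker]
      simp_rw [Finset.mul_sum, Finset.sum_mul]
      rw [Finset.sum_congr rfl (fun z' _ => Finset.mul_sum _ _ _), Finset.sum_comm]
      apply Finset.sum_congr rfl
      intro z₁ _
      apply Finset.sum_congr rfl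
      intro z' _
      ring
    rw [h1]
    have h2 : ∀ z₁, A.step t z r z₁ * (D * ∑ z', Ker A (t + 1) l z₁ z' * mv z.1 z'.1) ≤
        A.step t z r z₁ * (D * mv z.1 z₁.1 + ecost A D (t + 1) z₁ l) := by
      intro z₁
      apply mul_le_mul_of_nonneg_left _ (A.step_nonneg _ _ _ _)
      have h3 : ∑ z', Ker A (t + 1) l z₁ z' * mv z.1 z'.1 ≤
          ∑ z', (Ker A (t + 1) l z₁ z' * mv z.1 z₁.1 + Ker A (t + 1) l z₁ z' * mv z₁.1 z'.1) := by
        apply Finset.sum_le_sum
        intro z' _
        rw [← mul_add]
        exact mul_le_mul_of_nonneg_left (mv_triangle _ _ _) (Ker_nonneg _ _ _ _ _)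
      rw [Finset.sum_add_distrib, ← Finset.sum_mul, Ker_sum, one_mul] at h3
      have h4 := mul_le_mul_of_nonneg_left h3 hD
      have h5 := ih (t + 1) z₁
      rw [mul_add] at h4
      linarith
    have h6 := Finset.sum_le_sum (fun z₁ (_ : z₁ ∈ (Finset.univ : Finset (Conf k × S))) => h2 z₁)
    have h7 := serv_nonneg z.1 r
    linarith

theorem ecost_ge_count (hk : 0 < k) (A : Alg k S) {D : ℝ} (hD : 0 ≤ D) (p : Fin (k + 1))
    (l : List (Fin (k + 1))) :
    ∀ t z, (¬ ∃ i, z.1 i = p) → min D (l.count p : ℝ) ≤ ecost A D t z l := by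
  induction l with
  | nil => intro t z _; simp [ecost_nil]
  | cons r l ih =>
    intro t z hz
    rw [ecost_cons]
    have h1 : ∀ z', A.step t z r z' * min D (l.count p : ℝ) ≤
        A.step t z r z' * (D * mv z.1 z'.1 + ecost A D (t + 1) z' l) := by
      intro z'
      apply mul_le_mul_of_nonneg_left _ (A.step_nonneg _ _ _ _)
      by_cases hz' : ∃ i, z'.1 i = p
      · have h2 := one_le_mv hz hz'
        have h3 := ecost_nonneg A hD l (t + 1) z'
        have h4 : D * 1 ≤ D * mv z.1 z'.1 := mul_le_mul_of_nonneg_left h2 hD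
        have h5 := min_le_left D (l.count p : ℝ)
        linarith
      · have h2 := ih (t + 1) z' hz'
        have h3 := mul_nonneg hD (mv_nonneg z.1 z'.1)
        linarith
    have h2 := Finset.sum_le_sum (fun z' (_ : z' ∈ (Finset.univ : Finset (Conf k × S))) => h1 z')
    rw [← Finset.sum_mul, A.step_sum, one_mul] at h2
    by_cases hr : r = p
    · subst hr
      rw [serv_eq_one hk hz, List.count_cons_self]
      push_cast
      have h3 : min D ((l.count r : ℝ) + 1) ≤ 1 + min D (l.count r : ℝ) := by
        rcases le_total D (l.count r : ℝ) with h | h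
        · rw [min_eq_left h, min_eq_left (by linarith)]
          linarith
        · rw [min_eq_right h]
          have := min_le_right D ((l.count r : ℝ) + 1)
          linarith
      linarith
    · rw [List.count_cons_of_ne hr]
      have h3 := serv_nonneg z.1 r
      linarith

end Pool.Agent.H40.PM
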