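import Pool.Agent.H40.PM.Info
import Pool.Agent.H40.PM.Defs

/-!
MP_40554b_lc: averages over random request lists.
-/

set_option autoImplicit false

open Finset Function MeasureTheory

namespace Pool.Agent.H40.PM

variable {k : ℕ}

/-- the request list of a pattern `ξ`: in step `j` the point `j+1` (if `ξ j`) or the anchor `0`
is requested `L` times -/
def pat (L : ℕ) (ξ : Fin k → Bool) : List (Fin (k + 1)) :=
  (List.ofFn fun j => List.replicate L (if ξ j then j.succ else 0)).flatten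

theorem length_pat (L : ℕ) (ξ : Fin k → Bool) : (pat L ξ).length = k * L := by
  unfold pat
  rw [List.length_flatten, List.map_ofFn, List.sum_ofFn]
  simp

theorem mem_pat {L : ℕ} {ξ : Fin k → Bool} {p : Fin (k + 1)} (h : p ∈ pat L ξ) :
    ∃ j, p = if ξ j then j.succ else 0 := by
  unfold pat at h
  rw [List.mem_flatten] at h
  obtain ⟨l, hl, hp⟩ := h
  rw [List.mem_ofFn] at hl
  obtain ⟨j, hj⟩ := hl
  rw [← hj] at hp
  exact ⟨j, List.eq_of_mem_replicate hp⟩

theorem notMem_pat (L : ℕ) (ξ : Fin k → Bool) (o : Fin k) : o.succ ∉ pat L (update ξ o false) := by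
  intro h
  obtain ⟨j, hj⟩ := mem_pat h
  by_cases hjo : j = o
  · subst hjo
    rw [update_self] at hj
    simp at hj
  · rw [update_of_ne hjo] at hj
    cases hb : ξ j
    · rw [hb] at hj
      simp at hj
    · rw [hb] at hj
      simp only [if_true] at hj
      exact hjo (Fin.succ_injective _ hj).symm

theorem count_pat (L : ℕ) (ξ : Fin k → Bool) (j : Fin k) :
    L ≤ (pat L ξ).count (if ξ j then j.succ else 0) := by
  unfold pat
  rw [List.count_flatten, List.map_ofFn]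
  have h1 : (List.replicate L (if ξ j then j.succ else 0)).count (if ξ j then j.succ else 0) = L :=
    List.count_replicate_self
  calc L = (List.replicate L (if ξ j then j.succ else 0)).count (if ξ j then j.succ else 0) :=
        h1.symm
    _ ≤ _ := by
      apply List.single_le_sum (fun _ _ => Nat.zero_le _)
      rw [List.mem_ofFn]
      exact ⟨j, rfl⟩

/-! ### functionals -/

/-- functions of request lists -/
abbrev Fn (k : ℕ) : Type := List (Fin (k + 1)) → ℝ

/-- evaluation at a list -/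
noncomputable def evL (l : List (Fin (k + 1))) : Fn k →ₗ[ℝ] ℝ := LinearMap.proj l

theorem evL_apply (l : List (Fin (k + 1))) (f : Fn k) : evL l f = f l := rfl

/-- prefixing by `l` -/
noncomputable def preL (l : List (Fin (k + 1))) : Fn k →ₗ[ℝ] Fn k :=
  LinearMap.funLeft ℝ ℝ (fun l' => l ++ l')

/-- composition of averages (concatenation of independent lists) -/
noncomputable def cmp (Φ₁ Φ₂ : Fn k →ₗ[ℝ] ℝ) : Fn k →ₗ[ℝ] ℝ :=
  Φ₁ ∘ₗ LinearMap.pi (fun l => Φ₂ ∘ₗ preL l)

theorem cmp_apply (Φ₁ Φ₂ : Fn k →ₗ[ℝ] ℝ) (f : Fn k) :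
    cmp Φ₁ Φ₂ f = Φ₁ (fun l => Φ₂ (fun l' => f (l ++ l'))) := rfl

/-- one round with missing point `o+1` -/
noncomputable def avR (L : ℕ) (o : Fin k) : Fn k →ₗ[ℝ] ℝ :=
  ((2 : ℝ) ^ k)⁻¹ • ∑ ξ : Fin k → Bool, evL (pat L (update ξ o false))

theorem avR_apply (L : ℕ) (o : Fin k) (f : Fn k) :
    avR L o f = (∑ ξ : Fin k → Bool, f (pat L (update ξ o false))) / 2 ^ k := by
  unfold avR
  rw [LinearMap.smul_apply, LinearMap.sum_apply, smul_eq_mul, div_eq_inv_mul]
  rfl

/-- `i` rounds with the missing point `o+1` -/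
noncomputable def avRs (L : ℕ) (o : Fin k) : ℕ → (Fn k →ₗ[ℝ] ℝ)
  | 0 => evL []
  | i + 1 => cmp (avR L o) (avRs L o i)

/-- an epoch: `n` rounds with a random missing point -/
noncomputable def avE (k L n : ℕ) : Fn k →ₗ[ℝ] ℝ := (k : ℝ)⁻¹ • ∑ o : Fin k, avRs L o n

theorem avE_apply (L n : ℕ) (f : Fn k) : avE k L n f = (∑ o : Fin k, avRs L o n f) / k := by
  unfold avE
  rw [LinearMap.smul_apply, LinearMap.sum_apply, smul_eq_mul, div_eq_inv_mul]

/-- `m` epochs -/
noncomputable def avEs (k L n : ℕ) : ℕ → (Fn k →ₗ[ℝ] ℝ)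
  | 0 => evL []
  | m + 1 => cmp (avE k L n) (avEs k L n m)

/-! ### monotonicity on the support -/

/-- `Φ` is monotone and only sees the lists with property `P` -/
def Supp (Φ : Fn k →ₗ[ℝ] ℝ) (P : List (Fin (k + 1)) → Prop) : Prop :=
  ∀ f g : Fn k, (∀ l, P l → f l ≤ g l) → Φ f ≤ Φ g

/-- total mass one -/
def Mass (Φ : Fn k →ₗ[ℝ] ℝ) : Prop := ∀ c : ℝ, Φ (fun _ => c) = c

theorem Supp.congr {Φ : Fn k →ₗ[ℝ] ℝ} {P : List (Fin (k + 1)) → Prop} (h : Supp Φ P) {f g : Fn k}
    (hfg : ∀ l, P l → f l = g l) : Φ f = Φ g :=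
  le_antisymm (h _ _ fun l hl => (hfg l hl).le) (h _ _ fun l hl => (hfg l hl).ge)

theorem Supp.weaken {Φ : Fn k →ₗ[ℝ] ℝ} {P P' : List (Fin (k + 1)) → Prop} (h : Supp Φ P)
    (hP : ∀ l, P l → P' l) : Supp Φ P' :=
  fun f g hfg => h f g fun l hl => hfg l (hP l hl)

theorem supp_cmp {Φ₁ Φ₂ : Fn k →ₗ[ℝ] ℝ} {P₁ P₂ P : List (Fin (k + 1)) → Prop} (h₁ : Supp Φ₁ P₁)
    (h₂ : Supp Φ₂ P₂) (hP : ∀ l l', P₁ l → P₂ l' → P (l ++ l')) : Supp (cmp Φ₁ Φ₂) P := by
  intro f g hfg
  rw [cmp_apply, cmp_apply]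
  apply h₁
  intro l hl
  apply h₂
  intro l' hl'
  exact hfg _ (hP l l' hl hl')

theorem mass_cmp {Φ₁ Φ₂ : Fn k →ₗ[ℝ] ℝ} (h₁ : Mass Φ₁) (h₂ : Mass Φ₂) : Mass (cmp Φ₁ Φ₂) := by
  intro c
  rw [cmp_apply]
  have : (fun _ : List (Fin (k + 1)) => Φ₂ fun _ => c) = fun _ => c := by
    funext l
    exact h₂ c
  rw [this]
  exact h₁ c

theorem supp_avR (L : ℕ) (o : Fin k) :
    Supp (avR L o) (fun l => o.succ ∉ l ∧ l.length = k * L) := by
  intro f g hfg
  rw [avR_apply, avR_apply]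
  apply div_le_div_of_nonneg_right _ (by positivity)
  apply Finset.sum_le_sum
  intro ξ _
  exact hfg _ ⟨notMem_pat L ξ o, length_pat L _⟩

theorem mass_avR (L : ℕ) (o : Fin k) : Mass (avR L o) := by
  intro c
  rw [avR_apply]
  simp

theorem supp_avRs (L : ℕ) (o : Fin k) (i : ℕ) : Supp (avRs L o i) (fun l => o.succ ∉ l) := by
  induction i with
  | zero =>
    intro f g hfg
    exact hfg [] (by simp)
  | succ i ih =>
    refine supp_cmp ((supp_avR L o).weaken fun l hl => hl.1) ih ?_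
    intro l l' hl hl'
    rw [List.mem_append]
    rintro (h | h)
    · exact hl h
    · exact hl' h

theorem mass_avRs (L : ℕ) (o : Fin k) (i : ℕ) : Mass (avRs L o i) := by
  induction i with
  | zero => intro c; rfl
  | succ i ih => exact mass_cmp (mass_avR L o) ih

theorem supp_avE (L n : ℕ) : Supp (avE k L n) (fun _ => True) := by
  intro f g hfg
  rw [avE_apply, avE_apply]
  apply div_le_div_of_nonneg_right _ (Nat.cast_nonneg k)
  apply Finset.sum_le_sum
  intro o _
  exact (supp_avRs L o n) _ _ fun l _ => hfg l trivial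

theorem mass_avE (hk : 0 < k) (L n : ℕ) : Mass (avE k L n) := by
  intro c
  rw [avE_apply, Finset.sum_congr rfl (fun o _ => mass_avRs L o n c)]
  have : (k : ℝ) ≠ 0 := by positivity
  simp
  field_simp

theorem supp_avEs (L n m : ℕ) : Supp (avEs k L n m) (fun _ => True) := by
  induction m with
  | zero => intro f g hfg; exact hfg [] trivial
  | succ m ih => exact supp_cmp (supp_avE L n) ih fun _ _ _ _ => trivial

theorem mass_avEs (hk : 0 < k) (L n m : ℕ) : Mass (avEs k L n m) := by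
  induction m with
  | zero => intro c; rfl
  | succ m ih => exact mass_cmp (mass_avE hk L n) ih

/-! ### exchanging with integrals -/

section Integral

variable {Ω : Type} [MeasurableSpace Ω] (μ : Measure Ω)

/-- `Φ` commutes with integrals -/
def IntOK (Φ : Fn k →ₗ[ℝ] ℝ) : Prop :=
  ∀ f : Ω → Fn k, (∀ l, Integrable (fun ω => f ω l) μ) →
    Integrable (fun ω => Φ (f ω)) μ ∧ Φ (fun l => ∫ ω, f ω l ∂μ) = ∫ ω, Φ (f ω) ∂μ

variable {μ}

theorem intOK_evL (l : List (Fin (k + 1))) : IntOK μ (evL l) := fun _ hf => ⟨hf l, rfl⟩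

theorem intOK_cmp {Φ₁ Φ₂ : Fn k →ₗ[ℝ] ℝ} (h₁ : IntOK μ Φ₁) (h₂ : IntOK μ Φ₂) :
    IntOK μ (cmp Φ₁ Φ₂) := by
  intro f hf
  have h3 : ∀ l, Integrable (fun ω => Φ₂ (fun l' => f ω (l ++ l'))) μ ∧
      Φ₂ (fun l' => ∫ ω, f ω (l ++ l') ∂μ) = ∫ ω, Φ₂ (fun l' => f ω (l ++ l')) ∂μ :=
    fun l => h₂ (fun ω l' => f ω (l ++ l')) fun l' => hf (l ++ l')
  have h4 := h₁ (fun ω l => Φ₂ (fun l' => f ω (l ++ l'))) fun l => (h3 l).1
  refine ⟨h4.1, ?_⟩
  rw [cmp_apply]
  have h5 : (fun l => Φ₂ (fun l' => ∫ ω, f ω (l ++ l') ∂μ)) =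
      fun l => ∫ ω, Φ₂ (fun l' => f ω (l ++ l')) ∂μ := by
    funext l
    exact (h3 l).2
  rw [h5, h4.2]
  rfl

theorem intOK_smul_sum {ι : Type} [Fintype ι] (c : ℝ) (Φ : ι → (Fn k →ₗ[ℝ] ℝ))
    (h : ∀ i, IntOK μ (Φ i)) : IntOK μ (c • ∑ i, Φ i) := by
  intro f hf
  have e : ∀ g : Fn k, (c • ∑ i, Φ i) g = c * ∑ i, Φ i g := by
    intro g
    rw [LinearMap.smul_apply, LinearMap.sum_apply, smul_eq_mul]
  simp only [e]
  refine ⟨?_, ?_⟩
  · apply Integrable.const_mul
    exact integrable_finset_sum _ fun i _ => (h i f hf).1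
  · rw [integral_const_mul, integral_finset_sum _ fun i _ => (h i f hf).1]
    congr 1
    exact Finset.sum_congr rfl fun i _ => (h i f hf).2

theorem intOK_avEs (L n m : ℕ) : IntOK μ (avEs k L n m) := by
  have h1 : ∀ o : Fin k, IntOK μ (avR L o) := fun o => intOK_smul_sum _ _ fun ξ => intOK_evL _
  have h2 : ∀ (o : Fin k) (i : ℕ), IntOK μ (avRs L o i) := by
    intro o i
    induction i with
    | zero => exact intOK_evL []
    | succ i ih => exact intOK_cmp (h1 o) ih
  have h3 : IntOK μ (avE k L n) := intOK_smul_sum _ _ fun o => h2 o n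
  induction m with
  | zero => exact intOK_evL []
  | succ m ih => exact intOK_cmp h3 ih

end Integral

/-! ### the optimal cost of the random sequences -/

theorem avE_opt_le (hk : 0 < k) {D : ℝ} (hD : 0 ≤ D) (L n : ℕ) (Φ : Fn k →ₗ[ℝ] ℝ)
    (hΦ : Supp Φ (fun _ => True)) (hΦ1 : Mass Φ) (B : ℝ)
    (hB : ∀ (c : Conf k) (q : Fin (k + 1)), Cov c q → Φ (opt D c) ≤ B)
    (c : Conf k) (q : Fin (k + 1)) (hc : Cov c q) :
    cmp (avE k L n) Φ (opt D c) ≤ (1 + D) + B := by
  rw [cmp_apply]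
  have h1 : ∀ o : Fin k, avRs L o n (fun l => Φ (fun l' => opt D c (l ++ l'))) ≤ (1 + D) + B := by
    intro o
    obtain ⟨c', hc', hm⟩ := exists_cov_near hc o.succ
    have h2 : avRs L o n (fun l => Φ (fun l' => opt D c (l ++ l'))) ≤
        avRs L o n (fun _ => (1 + D) + B) := by
      apply supp_avRs L o n
      intro l hl
      have h3 : Φ (fun l' => opt D c (l ++ l')) ≤ Φ ((fun _ => 1 + D) + opt D c') := by
        apply hΦ
        intro l' _
        have h4 := opt_lip hD (l ++ l') c c'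
        have h5 := opt_stay (D := D) hc' l' l hl
        have h6 := mul_le_mul_of_nonneg_left hm hD
        simp only [Pi.add_apply]
        linarith
      rw [map_add, hΦ1] at h3
      have h7 := hB c' o.succ hc'
      linarith
    rw [mass_avRs] at h2
    exact h2
  rw [avE_apply]
  have hkr : (0 : ℝ) < k := by exact_mod_cast hk
  rw [div_le_iff₀ hkr]
  calc ∑ o, avRs L o n (fun l => Φ (fun l' => opt D c (l ++ l')))
      ≤ ∑ _o : Fin k, ((1 + D) + B) := Finset.sum_le_sum fun o _ => h1 o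
    _ = ((1 + D) + B) * k := by
      rw [Finset.sum_const, Finset.card_univ, Fintype.card_fin, nsmul_eq_mul]
      ring

theorem avEs_opt_le (hk : 0 < k) {D : ℝ} (hD : 0 ≤ D) (L n m : ℕ) :
    ∀ (c : Conf k) (q : Fin (k + 1)), Cov c q → avEs k L n m (opt D c) ≤ m * (1 + D) := by
  induction m with
  | zero =>
    intro c q _
    show opt D c [] ≤ _
    rw [opt_nil]
    simp
  | succ m ih =>
    intro c q hc
    have h := avE_opt_le hk hD L n (avEs k L n m) (supp_avEs L n m) (mass_avEs hk L n m) _ ih c q hc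
    have e : avEs k L n (m + 1) = cmp (avE k L n) (avEs k L n m) := rfl
    rw [e]
    refine h.trans (le_of_eq ?_)
    push_cast
    ring

theorem avEs_opt_le' (hk : 0 < k) {D : ℝ} (hD : 0 ≤ D) (L n m : ℕ) (c : Conf k) :
    avEs k L n m (opt D c) ≤ (1 + D * k) + m * (1 + D) := by
  obtain ⟨c', hc'⟩ := exists_cov (k := k) 0
  have h1 : avEs k L n m (opt D c) ≤ avEs k L n m ((fun _ => 1 + D * k) + opt D c') := by
    apply supp_avEs
    intro l _
    have h2 := opt_lip hD l c c'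
    have h3 := mul_le_mul_of_nonneg_left (mv_le c c') hD
    simp only [Pi.add_apply]
    linarith
  rw [map_add, mass_avEs hk] at h1
  have h2 := avEs_opt_le hk hD L n m c' 0 hc'
  linarith

end Pool.Agent.H40.PM
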