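import Pool.Agent.H40.PM.Avg

/-!
MP_40554b_lc: the killed chain and the cost of an epoch.
-/

set_option autoImplicit false

open Finset Function

namespace Pool.Agent.H40.PM

variable {k : ℕ} {S : Type} [Fintype S]

/-- states of the killed chain: state of the algorithm and number of moved pages -/
abbrev XX (k : ℕ) (S : Type) (n : ℕ) : Type := Option ((Conf k × S) × Fin (n + 1))

/-- the killed chain follows the algorithm until more than `n` pages have moved -/
def nxt {n : ℕ} (z : Conf k × S) (m : Fin (n + 1)) (z' : Conf k × S) : XX k S n :=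
  if h : (m : ℕ) + hm z.1 z'.1 < n + 1 then some (z', ⟨(m : ℕ) + hm z.1 z'.1, h⟩) else none

open Classical in
/-- transition probabilities of the killed chain -/
noncomputable def Qc (A : Alg k S) (t₀ L n : ℕ) (r : ℕ) (ξ : Fin k → Bool) :
    XX k S n → XX k S n → ℝ
  | some (z, m), y => ∑ z', Ker A (t₀ + r * (k * L)) (pat L ξ) z z' *
      (if nxt z m z' = y then 1 else 0)
  | none, y => if y = none then 1 else 0

theorem Qc_nonneg (A : Alg k S) (t₀ L n : ℕ) (r : ℕ) (ξ : Fin k → Bool) (x y : XX k S n) :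
    0 ≤ Qc A t₀ L n r ξ x y := by
  rcases x with _ | ⟨z, m⟩
  · simp only [Qc]
    split_ifs <;> norm_num
  · simp only [Qc]
    apply Finset.sum_nonneg
    intro z' _
    apply mul_nonneg (Ker_nonneg _ _ _ _ _)
    split_ifs <;> norm_num

theorem Qc_sum_mul (A : Alg k S) (t₀ L n : ℕ) (r : ℕ) (ξ : Fin k → Bool) (z : Conf k × S)
    (m : Fin (n + 1)) (F : XX k S n → ℝ) :
    ∑ y, Qc A t₀ L n r ξ (some (z, m)) y * F y =
      ∑ z', Ker A (t₀ + r * (k * L)) (pat L ξ) z z' * F (nxt z m z') := by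
  classical
  simp only [Qc]
  simp_rw [Finset.sum_mul]
  rw [Finset.sum_comm]
  apply Finset.sum_congr rfl
  intro z' _
  rw [Finset.sum_eq_single (nxt z m z')]
  · simp
  · intro y _ hy
    rw [if_neg (fun h => hy h.symm)]
    ring
  · intro h
    exact absurd (Finset.mem_univ _) h

theorem Qc_sum (A : Alg k S) (t₀ L n : ℕ) (r : ℕ) (ξ : Fin k → Bool) (x : XX k S n) :
    ∑ y, Qc A t₀ L n r ξ x y = 1 := by
  rcases x with _ | ⟨z, m⟩
  · rw [Finset.sum_eq_single none]
    · simp [Qc]
    · intro y _ hy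
      simp only [Qc]
      rw [if_neg hy]
    · intro h
      exact absurd (Finset.mem_univ _) h
  · have h := Qc_sum_mul A t₀ L n r ξ z m (fun _ => 1)
    simp only [mul_one] at h
    rw [h, Ker_sum]

/-- the reference weights -/
noncomputable def ww (n : ℕ) : XX k S n → XX k S n → ℝ
  | some (z, m), some (z', m') => if (m' : ℕ) = (m : ℕ) + hm z.1 z'.1 then
      ((Fintype.card S : ℝ) * 6)⁻¹ * ((k : ℝ) ^ (2 * hm z.1 z'.1))⁻¹ else 0
  | some _, none => 1 / 2
  | none, none => 1 / 2
  | none, some _ => 0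

theorem ww_nonneg (n : ℕ) (x y : XX k S n) : 0 ≤ ww n x y := by
  rcases x with _ | ⟨z, m⟩ <;> rcases y with _ | ⟨z', m'⟩ <;> simp only [ww]
  · norm_num
  · exact le_refl _
  · norm_num
  · split_ifs
    · positivity
    · exact le_refl _

theorem sum_hm_le (hk : 0 < k) (c : Conf k) :
    ∑ c' : Conf k, ((k : ℝ) ^ (2 * hm c c'))⁻¹ ≤ 3 := by
  have hk' : (k : ℝ) ≠ 0 := by positivity
  have h1 : ∀ c' : Conf k, ((k : ℝ) ^ (2 * hm c c'))⁻¹ =
      ∏ i, (if c i = c' i then 1 else ((k : ℝ) ^ 2)⁻¹) := by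
    intro c'
    rw [Finset.prod_ite, Finset.prod_const_one, one_mul, Finset.prod_const, pow_mul, inv_pow]
    rfl
  rw [Finset.sum_congr rfl (fun c' _ => h1 c')]
  have h2 : ∑ c' : Conf k, ∏ i, (if c i = c' i then (1 : ℝ) else ((k : ℝ) ^ 2)⁻¹) =
      ∏ i, ∑ p : Fin (k + 1), (if c i = p then (1 : ℝ) else ((k : ℝ) ^ 2)⁻¹) := by
    rw [Finset.prod_univ_sum, Fintype.piFinset_univ]
  rw [h2]
  have h3 : ∀ i, ∑ p : Fin (k + 1), (if c i = p then (1 : ℝ) else ((k : ℝ) ^ 2)⁻¹) =
      1 + (k : ℝ)⁻¹ := by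
    intro i
    have h4 : ∀ p : Fin (k + 1), (if c i = p then (1 : ℝ) else ((k : ℝ) ^ 2)⁻¹) =
        ((k : ℝ) ^ 2)⁻¹ + (if c i = p then 1 - ((k : ℝ) ^ 2)⁻¹ else 0) := by
      intro p
      split_ifs <;> ring
    rw [Finset.sum_congr rfl (fun p _ => h4 p), Finset.sum_add_distrib, Finset.sum_ite_eq]
    simp
    field_simp
    ring
  rw [Finset.prod_congr rfl (fun i _ => h3 i), Finset.prod_const, Finset.card_univ,
    Fintype.card_fin]
  have h5 : 1 + (k : ℝ)⁻¹ ≤ Real.exp ((k : ℝ)⁻¹) := by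
    have := Real.add_one_le_exp ((k : ℝ)⁻¹)
    linarith
  calc (1 + (k : ℝ)⁻¹) ^ k ≤ Real.exp ((k : ℝ)⁻¹) ^ k := by
        apply pow_le_pow_left₀ _ h5
        positivity
    _ = Real.exp 1 := by
        rw [← Real.exp_nat_mul]
        congr 1
        field_simp
    _ ≤ 3 := by
        have := Real.exp_one_lt_d9
        linarith

theorem ww_sum (hk : 0 < k) (n : ℕ) (x : XX k S n) : ∑ y, ww n x y ≤ 1 := by
  rw [Fintype.sum_option]
  rcases x with _ | ⟨z, m⟩
  · simp only [ww]
    rw [Finset.sum_const_zero]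
    norm_num
  · simp only [ww]
    have hS : 0 < (Fintype.card S : ℝ) := by
      have : Nonempty S := ⟨z.2⟩
      exact_mod_cast Fintype.card_pos
    rw [Fintype.sum_prod_type]
    have h1 : ∀ z' : Conf k × S, ∑ m' : Fin (n + 1), (if (m' : ℕ) = (m : ℕ) + hm z.1 z'.1 then
        ((Fintype.card S : ℝ) * 6)⁻¹ * ((k : ℝ) ^ (2 * hm z.1 z'.1))⁻¹ else 0) ≤
        ((Fintype.card S : ℝ) * 6)⁻¹ * ((k : ℝ) ^ (2 * hm z.1 z'.1))⁻¹ := by
      intro z'
      have hp : 0 ≤ ((Fintype.card S : ℝ) * 6)⁻¹ * ((k : ℝ) ^ (2 * hm z.1 z'.1))⁻¹ := by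
        positivity
      by_cases hlt : (m : ℕ) + hm z.1 z'.1 < n + 1
      · rw [Finset.sum_eq_single (⟨(m : ℕ) + hm z.1 z'.1, hlt⟩ : Fin (n + 1))]
        · simp
        · intro b _ hb
          rw [if_neg]
          intro h
          exact hb (Fin.ext h)
        · intro h
          exact absurd (Finset.mem_univ _) h
      · rw [Finset.sum_eq_zero]
        · exact hp
        · intro b _
          rw [if_neg]
          intro h
          exact hlt (h ▸ b.2)
    have h2 := Finset.sum_le_sum (fun z' (_ : z' ∈ (Finset.univ : Finset (Conf k × S))) => h1 z')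
    have h3 : ∑ z' : Conf k × S, ((Fintype.card S : ℝ) * 6)⁻¹ * ((k : ℝ) ^ (2 * hm z.1 z'.1))⁻¹ =
        (∑ c' : Conf k, ((k : ℝ) ^ (2 * hm z.1 c'))⁻¹) / 6 := by
      rw [Fintype.sum_prod_type]
      simp only [Finset.sum_const, Finset.card_univ, nsmul_eq_mul]
      rw [Finset.sum_div]
      apply Finset.sum_congr rfl
      intro c' _
      field_simp
    rw [h3] at h2
    have h4 := sum_hm_le hk z.1
    linarith

/-- the potential -/
noncomputable def pot (n : ℕ) : XX k S n → ℝ
  | some (_, m) => 2 * Real.log k * (m : ℕ)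
  | none => 2 * Real.log k * n

theorem pot_le (hk : 0 < k) (n : ℕ) (x : XX k S n) : pot n x ≤ 2 * Real.log k * n := by
  have h : 0 ≤ Real.log (k : ℝ) := Real.log_nonneg (by exact_mod_cast hk)
  rcases x with _ | ⟨z, m⟩
  · exact le_refl _
  · simp only [pot]
    apply mul_le_mul_of_nonneg_left _ (by linarith)
    exact_mod_cast Nat.le_of_lt_succ m.2

theorem ww_log [Nonempty S] (hk : 0 < k) (A : Alg k S) (t₀ L n : ℕ) (r : ℕ) (ξ : Fin k → Bool)
    (x y : XX k S n) (hQ : Qc A t₀ L n r ξ x y ≠ 0) :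
    0 < ww n x y ∧ -Real.log (ww n x y) ≤
      (Real.log (Fintype.card S) + Real.log 6) + pot n y - pot n x := by
  have hl : 0 ≤ Real.log (k : ℝ) := Real.log_nonneg (by exact_mod_cast hk)
  have hS : (1 : ℝ) ≤ (Fintype.card S : ℝ) := by exact_mod_cast Fintype.card_pos (α := S)
  have hlS : 0 ≤ Real.log (Fintype.card S : ℝ) := Real.log_nonneg hS
  have h2 : -Real.log (1 / 2) ≤ Real.log 6 := by
    rw [one_div, Real.log_inv, neg_neg]
    exact Real.log_le_log (by norm_num) (by norm_num)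
  rcases x with _ | ⟨z, m⟩ <;> rcases y with _ | ⟨z', m'⟩
  · simp only [ww, pot]
    refine ⟨by norm_num, ?_⟩
    linarith
  · exfalso
    apply hQ
    simp [Qc]
  · simp only [ww, pot]
    refine ⟨by norm_num, ?_⟩
    have h3 : 2 * Real.log (k : ℝ) * (m : ℕ) ≤ 2 * Real.log (k : ℝ) * n := by
      apply mul_le_mul_of_nonneg_left _ (by linarith)
      exact_mod_cast Nat.le_of_lt_succ m.2
    linarith
  · have h3 : (m' : ℕ) = (m : ℕ) + hm z.1 z'.1 := by
      by_contra hne
      apply hQ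
      simp only [Qc]
      apply Finset.sum_eq_zero
      intro z'' _
      rw [if_neg, mul_zero]
      intro h
      unfold nxt at h
      split_ifs at h with h4
      have h5 := Option.some.inj h
      have h6 : z'' = z' := congrArg Prod.fst h5
      have h7 : (⟨(m : ℕ) + hm z.1 z''.1, h4⟩ : Fin (n + 1)) = m' := congrArg Prod.snd h5
      apply hne
      subst h6
      rw [← h7]
    simp only [ww, pot]
    rw [if_pos h3]
    have hk' : (0 : ℝ) < k := by exact_mod_cast hk
    refine ⟨by positivity, ?_⟩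
    rw [← mul_inv, Real.log_inv, neg_neg, Real.log_mul (by positivity) (by positivity),
      Real.log_mul (by positivity) (by norm_num), Real.log_pow, h3]
    push_cast
    linarith

/-- the bad event: `o+1` is the only uncovered point -/
def Ab (n : ℕ) (o : Fin k) : XX k S n → Prop
  | some (z, _) => Cov z.1 o.succ
  | none => False

theorem Ab_inj (n : ℕ) (x : XX k S n) (o o' : Fin k) (h : Ab n o x) (h' : Ab n o' x) : o = o' := by
  rcases x with _ | ⟨z, m⟩
  · exact absurd h id
  · exact Fin.succ_injective _ (Cov.inj h h')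

/-! ### rounds -/

theorem avR_ecost_ge_move (A : Alg k S) {D : ℝ} (hD : 0 ≤ D) (L : ℕ) (o : Fin k) (t : ℕ)
    (z : Conf k × S) :
    D * ∑ z', mo (fun ξ => Ker A t (pat L ξ) z) o z' * mv z.1 z'.1 ≤
      avR L o (ecost A D t z) := by
  rw [avR_apply]
  unfold mo
  have h1 : D * ∑ z', (∑ ξ : Fin k → Bool, Ker A t (pat L (update ξ o false)) z z') / 2 ^ k *
      mv z.1 z'.1 = (∑ ξ : Fin k → Bool, D * ∑ z', Ker A t (pat L (update ξ o false)) z z' *
      mv z.1 z'.1) / 2 ^ k := by
    rw [← Finset.mul_sum, mul_div_assoc]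
    congr 1
    rw [Finset.sum_comm, Finset.sum_div]
    apply Finset.sum_congr rfl
    intro z' _
    rw [Finset.sum_div, Finset.sum_div, Finset.sum_mul]
    apply Finset.sum_congr rfl
    intro ξ _
    ring
  rw [h1]
  apply div_le_div_of_nonneg_right _ (by positivity)
  apply Finset.sum_le_sum
  intro ξ _
  exact ecost_ge_move A hD _ t z

theorem sum_bit (j : Fin k) : ∑ ξ : Fin k → Bool, (if ξ j then (1 : ℝ) else 0) = 2 ^ k / 2 := by
  have h1 : ∑ ξ : Fin k → Bool, (if ξ j then (1 : ℝ) else 0) =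
      ∑ ξ : Fin k → Bool, (if ξ j then (0 : ℝ) else 1) := by
    rw [← (flipE j).sum_comp (fun ξ : Fin k → Bool => if ξ j then (1 : ℝ) else 0)]
    apply Finset.sum_congr rfl
    intro ξ _
    simp only [flipE, Equiv.coe_fn_mk, update_self]
    cases h : ξ j <;> simp
  have h2 : ∑ ξ : Fin k → Bool, (if ξ j then (1 : ℝ) else 0) +
      ∑ ξ : Fin k → Bool, (if ξ j then (0 : ℝ) else 1) = 2 ^ k := by
    rw [← Finset.sum_add_distrib]
    have : ∀ ξ : Fin k → Bool, (if ξ j then (1 : ℝ) else 0) + (if ξ j then (0 : ℝ) else 1) = 1 := by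
      intro ξ
      cases ξ j <;> simp
    rw [Finset.sum_congr rfl (fun ξ _ => this ξ)]
    simp
  linarith

theorem avR_ecost_ge_half (hk : 0 < k) (A : Alg k S) {D : ℝ} (hD : 0 ≤ D) {L : ℕ}
    (hL : D ≤ (L : ℝ)) (o : Fin k) (t : ℕ) (z : Conf k × S) (hz : ¬ Cov z.1 o.succ) :
    D / 2 ≤ avR L o (ecost A D t z) := by
  unfold Cov at hz
  push Not at hz
  obtain ⟨p, hp, hun⟩ := hz
  have hun' : ¬ ∃ i, z.1 i = p := by
    rintro ⟨i, hi⟩
    exact hun i hi
  have hpow : (0 : ℝ) < 2 ^ k := by positivity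
  rw [avR_apply, le_div_iff₀ hpow]
  by_cases hp0 : p = 0
  · -- the anchor
    subst hp0
    calc D / 2 * 2 ^ k ≤ D * 2 ^ k := by nlinarith
      _ = ∑ _ξ : Fin k → Bool, D := by simp [mul_comm]
      _ ≤ _ := by
        apply Finset.sum_le_sum
        intro ξ _
        have h1 := ecost_ge_count hk A hD 0 (pat L (update ξ o false)) t z hun'
        have h2 := count_pat L (update ξ o false) o
        rw [update_self] at h2
        simp only [Bool.false_eq_true, if_false] at h2
        have h3 : (L : ℝ) ≤ ((pat L (update ξ o false)).count 0 : ℝ) := by exact_mod_cast h2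
        rw [min_eq_left (hL.trans h3)] at h1
        exact h1
  · obtain ⟨j, hj⟩ := Fin.exists_succ_eq_of_ne_zero hp0
    have hjo : j ≠ o := by
      rintro rfl
      exact hp hj.symm
    calc D / 2 * 2 ^ k = D * ∑ ξ : Fin k → Bool, (if ξ j then (1 : ℝ) else 0) := by
          rw [sum_bit]
          ring
      _ = ∑ ξ : Fin k → Bool, D * (if ξ j then (1 : ℝ) else 0) := Finset.mul_sum _ _ _
      _ ≤ _ := by
        apply Finset.sum_le_sum
        intro ξ _
        cases hb : ξ j
        · simp only [Bool.false_eq_true, if_false, mul_zero]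
          exact ecost_nonneg A hD _ _ _
        · simp only [if_true, mul_one]
          have h1 := ecost_ge_count hk A hD p (pat L (update ξ o false)) t z hun'
          have h2 := count_pat L (update ξ o false) j
          rw [update_of_ne hjo, hb] at h2
          simp only [if_true] at h2
          rw [hj] at h2
          have h3 : (L : ℝ) ≤ ((pat L (update ξ o false)).count p : ℝ) := by exact_mod_cast h2
          rw [min_eq_left (hL.trans h3)] at h1
          exact h1

theorem avRs_succ_ecost (A : Alg k S) (D : ℝ) (L : ℕ) (o : Fin k) (i : ℕ) (t : ℕ)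
    (z : Conf k × S) : avRs L o (i + 1) (ecost A D t z) = avR L o (ecost A D t z) +
      ∑ z', mo (fun ξ => Ker A t (pat L ξ) z) o z' *
        avRs L o i (ecost A D (t + k * L) z') := by
  have e : avRs L o (i + 1) = cmp (avR L o) (avRs L o i) := rfl
  rw [e, cmp_apply]
  have h1 : avR L o (fun l => avRs L o i (fun l' => ecost A D t z (l ++ l'))) =
      avR L o (fun l => ecost A D t z l + ∑ z', Ker A t l z z' *
        avRs L o i (ecost A D (t + k * L) z')) := by
    apply (supp_avR L o).congr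
    intro l hl
    have h2 : (fun l' => ecost A D t z (l ++ l')) = (fun _ => ecost A D t z l) +
        ∑ z', Ker A t l z z' • ecost A D (t + k * L) z' := by
      funext l'
      rw [ecost_append, hl.2, Pi.add_apply, Finset.sum_apply]
      rfl
    rw [h2, map_add, mass_avRs, map_sum]
    congr 1
    apply Finset.sum_congr rfl
    intro z' _
    rw [map_smul, smul_eq_mul]
  rw [h1, avR_apply, avR_apply, Finset.sum_add_distrib, add_div]
  congr 1
  rw [Finset.sum_comm, Finset.sum_div]
  apply Finset.sum_congr rfl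
  intro z' _
  unfold mo
  rw [← Finset.sum_mul]
  ring

/-! ### the lower bound for one missing point -/

theorem mo_Qc (A : Alg k S) (t₀ L n : ℕ) (r : ℕ) (o : Fin k) (z : Conf k × S) (m : Fin (n + 1))
    (F : XX k S n → ℝ) :
    ∑ y, mo (fun ξ => Qc A t₀ L n r ξ (some (z, m))) o y * F y =
      ∑ z', mo (fun ξ => Ker A (t₀ + r * (k * L)) (pat L ξ) z) o z' * F (nxt z m z') := by
  unfold mo
  have h1 : ∀ {Y : Type} [Fintype Y] (K : (Fin k → Bool) → Y → ℝ) (G : Y → ℝ),
      ∑ y, (∑ ξ : Fin k → Bool, K (update ξ o false) y) / 2 ^ k * G y =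
      (∑ ξ : Fin k → Bool, ∑ y, K (update ξ o false) y * G y) / 2 ^ k := by
    intro Y _ K G
    rw [Finset.sum_comm, Finset.sum_div]
    apply Finset.sum_congr rfl
    intro y _
    rw [← Finset.sum_mul]
    ring
  refine (h1 (fun ξ => Qc A t₀ L n r ξ (some (z, m))) F).trans ?_
  refine Eq.trans ?_ (h1 (fun ξ => Ker A (t₀ + r * (k * L)) (pat L ξ) z)
    (fun z' => F (nxt z m z'))).symm
  congr 1
  apply Finset.sum_congr rfl
  intro ξ _
  exact Qc_sum_mul A t₀ L n r _ z m F

open Classical in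
/-- probability of the bad event after `l` rounds -/
noncomputable def UB (A : Alg k S) (t₀ L n : ℕ) (o : Fin k) (l r : ℕ) (x : XX k S n) : ℝ :=
  UU (Qc A t₀ L n) (Ab n o) o l r x

/-- half the expected number of good rounds -/
noncomputable def WW (A : Alg k S) (t₀ L n : ℕ) (o : Fin k) (i r : ℕ) (x : XX k S n) : ℝ :=
  (∑ l ∈ range i, (1 - UB A t₀ L n o l r x)) / 2

theorem UB_nonneg (A : Alg k S) (t₀ L n : ℕ) (o : Fin k) (l : ℕ) :
    ∀ r x, 0 ≤ UB A t₀ L n o l r x := by
  classical
  induction l with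
  | zero => intro r x; unfold UB; simp only [UU]; split_ifs <;> norm_num
  | succ l ih =>
    intro r x
    unfold UB
    simp only [UU]
    apply Finset.sum_nonneg
    intro y _
    exact mul_nonneg (mo_nonneg (fun ξ y => Qc_nonneg A t₀ L n r ξ x y) o y) (ih _ _)

theorem WW_le (A : Alg k S) (t₀ L n : ℕ) (o : Fin k) (i r : ℕ) (x : XX k S n) :
    WW A t₀ L n o i r x ≤ (i : ℝ) / 2 := by
  unfold WW
  have h : ∑ l ∈ range i, (1 - UB A t₀ L n o l r x) ≤ ∑ _l ∈ range i, (1 : ℝ) := by
    apply Finset.sum_le_sum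
    intro l _
    have := UB_nonneg A t₀ L n o l r x
    linarith
  simp at h
  simp
  linarith

open Classical in
theorem WW_succ (A : Alg k S) (t₀ L n : ℕ) (o : Fin k) (i r : ℕ) (x : XX k S n) :
    WW A t₀ L n o (i + 1) r x = (1 - (if Ab n o x then 1 else 0)) / 2 +
      ∑ y, mo (fun ξ => Qc A t₀ L n r ξ x) o y * WW A t₀ L n o i (r + 1) y := by
  unfold WW
  rw [Finset.sum_range_succ']
  have h0 : UB A t₀ L n o 0 r x = if Ab n o x then 1 else 0 := rfl
  rw [h0]
  have hs := mo_sum (fun ξ => Qc_sum A t₀ L n r ξ x) o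
  have h1 : ∀ l, 1 - UB A t₀ L n o (l + 1) r x =
      ∑ y, mo (fun ξ => Qc A t₀ L n r ξ x) o y * (1 - UB A t₀ L n o l (r + 1) y) := by
    intro l
    have h2 : UB A t₀ L n o (l + 1) r x =
        ∑ y, mo (fun ξ => Qc A t₀ L n r ξ x) o y * UB A t₀ L n o l (r + 1) y := rfl
    rw [h2]
    have h3 : ∀ y, mo (fun ξ => Qc A t₀ L n r ξ x) o y * (1 - UB A t₀ L n o l (r + 1) y) =
        mo (fun ξ => Qc A t₀ L n r ξ x) o y -
        mo (fun ξ => Qc A t₀ L n r ξ x) o y * UB A t₀ L n o l (r + 1) y := by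
      intro y
      ring
    rw [Finset.sum_congr rfl (fun y _ => h3 y), Finset.sum_sub_distrib, hs]
  rw [Finset.sum_congr rfl (fun l _ => h1 l), Finset.sum_comm]
  have h4 : ∀ y, ∑ l ∈ range i, mo (fun ξ => Qc A t₀ L n r ξ x) o y *
      (1 - UB A t₀ L n o l (r + 1) y) = 2 * (mo (fun ξ => Qc A t₀ L n r ξ x) o y *
      ((∑ l ∈ range i, (1 - UB A t₀ L n o l (r + 1) y)) / 2)) := by
    intro y
    rw [← Finset.mul_sum]
    ring
  rw [Finset.sum_congr rfl (fun y _ => h4 y), ← Finset.mul_sum]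
  ring

theorem WW_bound (hk : 0 < k) (A : Alg k S) {D : ℝ} (hD : 0 < D) {L : ℕ} (hL : D ≤ (L : ℝ))
    (t₀ n : ℕ) (o : Fin k) (i : ℕ) (hi : i ≤ n) :
    ∀ (r : ℕ) (z : Conf k × S) (m : Fin (n + 1)), WW A t₀ L n o i r (some (z, m)) ≤
      2 / D * avRs L o i (ecost A D (t₀ + r * (k * L)) z) + (m : ℕ) := by
  classical
  induction i with
  | zero =>
    intro r z m
    have h1 : WW A t₀ L n o 0 r (some (z, m)) = 0 := by
      unfold WW
      simp
    have h2 : avRs L o 0 (ecost A D (t₀ + r * (k * L)) z) = 0 :=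
      ecost_nil A D (t₀ + r * (k * L)) z
    rw [h1, h2]
    positivity
  | succ i ih =>
    intro r z m
    have ih' := ih (by omega)
    rw [WW_succ, mo_Qc, avRs_succ_ecost]
    set t := t₀ + r * (k * L) with ht
    have ht' : t + k * L = t₀ + (r + 1) * (k * L) := by rw [ht]; ring
    rw [ht']
    have hKs : ∑ z', mo (fun ξ => Ker A t (pat L ξ) z) o z' = 1 :=
      mo_sum (fun ξ => Ker_sum A (pat L ξ) t z) o
    have hK0 : ∀ z', 0 ≤ mo (fun ξ => Ker A t (pat L ξ) z) o z' :=
      fun z' => mo_nonneg (fun ξ y => Ker_nonneg A (pat L ξ) t z y) o z'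
    -- one step
    have hstep : ∀ z', WW A t₀ L n o i (r + 1) (nxt z m z') ≤
        2 / D * avRs L o i (ecost A D (t₀ + (r + 1) * (k * L)) z') + ((m : ℕ) + mv z.1 z'.1) := by
      intro z'
      rw [mv_eq]
      unfold nxt
      split_ifs with h
      · have h2 := ih' (r + 1) z' ⟨(m : ℕ) + hm z.1 z'.1, h⟩
        refine h2.trans (le_of_eq ?_)
        push_cast
        ring
      · have h2 := WW_le A t₀ L n o i (r + 1) none
        have h3 : 0 ≤ avRs L o i (ecost A D (t₀ + (r + 1) * (k * L)) z') := by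
          have h4 := supp_avRs L o i (fun _ => 0) (ecost A D (t₀ + (r + 1) * (k * L)) z')
            (fun l _ => ecost_nonneg A hD.le l (t₀ + (r + 1) * (k * L)) z')
          rw [mass_avRs] at h4
          exact h4
        have h5 : 0 ≤ 2 / D * avRs L o i (ecost A D (t₀ + (r + 1) * (k * L)) z') := by
          positivity
        have h6 : (n : ℝ) + 1 ≤ (m : ℕ) + (hm z.1 z'.1 : ℝ) := by
          have : n + 1 ≤ (m : ℕ) + hm z.1 z'.1 := not_lt.mp h
          exact_mod_cast this
        have h7 : (i : ℝ) ≤ n := by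
          have : i ≤ n := by omega
          exact_mod_cast this
        have h8 : (0 : ℝ) ≤ i := Nat.cast_nonneg i
        linarith
    have hsum : ∑ z', mo (fun ξ => Ker A t (pat L ξ) z) o z' *
        WW A t₀ L n o i (r + 1) (nxt z m z') ≤
        2 / D * ∑ z', mo (fun ξ => Ker A t (pat L ξ) z) o z' *
          avRs L o i (ecost A D (t₀ + (r + 1) * (k * L)) z') + (m : ℕ) +
        ∑ z', mo (fun ξ => Ker A t (pat L ξ) z) o z' * mv z.1 z'.1 := by
      have h1 := Finset.sum_le_sum (fun z' (_ : z' ∈ (Finset.univ : Finset (Conf k × S))) =>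
        mul_le_mul_of_nonneg_left (hstep z') (hK0 z'))
      refine h1.trans (le_of_eq ?_)
      have h2 : ∀ z', mo (fun ξ => Ker A t (pat L ξ) z) o z' *
          (2 / D * avRs L o i (ecost A D (t₀ + (r + 1) * (k * L)) z') +
            ((m : ℕ) + mv z.1 z'.1)) =
          2 / D * (mo (fun ξ => Ker A t (pat L ξ) z) o z' *
          avRs L o i (ecost A D (t₀ + (r + 1) * (k * L)) z')) +
          mo (fun ξ => Ker A t (pat L ξ) z) o z' * (m : ℕ) +
          mo (fun ξ => Ker A t (pat L ξ) z) o z' * mv z.1 z'.1 := by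
        intro z'
        ring
      rw [Finset.sum_congr rfl (fun z' _ => h2 z'), Finset.sum_add_distrib,
        Finset.sum_add_distrib, ← Finset.mul_sum, ← Finset.sum_mul, hKs, one_mul]
    have hmove := avR_ecost_ge_move A hD.le L o t z
    have hbad : (1 - (if Ab n o (some (z, m)) then (1 : ℝ) else 0)) / 2 ≤
        avR L o (ecost A D t z) / D := by
      have h0 : 0 ≤ avR L o (ecost A D t z) := by
        have h4 := supp_avR L o (fun _ => 0) (ecost A D t z)
          (fun l _ => ecost_nonneg A hD.le l t z)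
        rw [mass_avR] at h4
        exact h4
      split_ifs with h
      · have : 0 ≤ avR L o (ecost A D t z) / D := by positivity
        linarith
      · have h5 := avR_ecost_ge_half hk A hD.le hL o t z h
        rw [le_div_iff₀ hD]
        linarith
    have hmove' : ∑ z', mo (fun ξ => Ker A t (pat L ξ) z) o z' * mv z.1 z'.1 ≤
        avR L o (ecost A D t z) / D := by
      rw [le_div_iff₀ hD]
      linarith
    have e1 : 2 / D * (avR L o (ecost A D t z) + ∑ z', mo (fun ξ => Ker A t (pat L ξ) z) o z' *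
          avRs L o i (ecost A D (t₀ + (r + 1) * (k * L)) z')) =
        avR L o (ecost A D t z) / D + avR L o (ecost A D t z) / D +
        2 / D * ∑ z', mo (fun ξ => Ker A t (pat L ξ) z) o z' *
          avRs L o i (ecost A D (t₀ + (r + 1) * (k * L)) z') := by
      ring
    rw [e1]
    linarith

/-! ### the cost of an epoch -/

theorem avE_ecost_ge [Nonempty S] (hk : 0 < k) (A : Alg k S) {D : ℝ} (hD : 0 < D) {L : ℕ}
    (hL : D ≤ (L : ℝ)) (n : ℕ)
    (hn : 5 + 16 * ((n : ℝ) * (Real.log (Fintype.card S) + Real.log 6 + 2 * Real.log k)) ≤ k / 2)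
    (t₀ : ℕ) (z : Conf k × S) : D * n / 8 ≤ avE k L n (ecost A D t₀ z) := by
  classical
  have hkr : (0 : ℝ) < k := by exact_mod_cast hk
  have hlk : 0 ≤ Real.log (k : ℝ) := Real.log_nonneg (by exact_mod_cast hk)
  have hS : (1 : ℝ) ≤ (Fintype.card S : ℝ) := by exact_mod_cast Fintype.card_pos (α := S)
  have hlS : 0 ≤ Real.log (Fintype.card S : ℝ) := Real.log_nonneg hS
  have hl6 : 0 ≤ Real.log (6 : ℝ) := Real.log_nonneg (by norm_num)
  set x₀ : XX k S n := some (z, 0) with hx₀
  have h1 : ∀ o : Fin k, WW A t₀ L n o n 0 x₀ ≤ 2 / D * avRs L o n (ecost A D t₀ z) := by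
    intro o
    have h := WW_bound hk A hD hL t₀ n o n le_rfl 0 z 0
    simpa using h
  have h2 := Finset.sum_le_sum (fun o (_ : o ∈ (Finset.univ : Finset (Fin k))) => h1 o)
  rw [← Finset.mul_sum] at h2
  have h3 : ∀ l ∈ range n, ∑ o, UB A t₀ L n o l 0 x₀ ≤ (k : ℝ) / 2 := by
    intro l hl
    have hl' : (l : ℝ) ≤ n := by
      have := Finset.mem_range.mp hl
      exact_mod_cast this.le
    have h := info_main (Q := Qc A t₀ L n) (fun r ξ x y => Qc_nonneg A t₀ L n r ξ x y)
      (fun r ξ x => Qc_sum A t₀ L n r ξ x) (ww n) (ww_nonneg n) (ww_sum hk n) (pot n)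
      (Real.log (Fintype.card S) + Real.log 6) (2 * Real.log k * n) (pot_le hk n)
      (fun r ξ x y hQ => ww_log hk A t₀ L n r ξ x y hQ) (Ab n) (Ab_inj n) l 0 x₀
    have hp : pot n x₀ = 0 := by
      rw [hx₀]
      simp [pot]
    rw [hp] at h
    refine le_trans h (le_trans ?_ hn)
    have h4 : (l : ℝ) * (Real.log (Fintype.card S) + Real.log 6) ≤
        (n : ℝ) * (Real.log (Fintype.card S) + Real.log 6) :=
      mul_le_mul_of_nonneg_right hl' (by linarith)
    nlinarith
  have h4 : ∑ o, WW A t₀ L n o n 0 x₀ = (∑ l ∈ range n, ((k : ℝ) - ∑ o, UB A t₀ L n o l 0 x₀)) / 2 := by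
    unfold WW
    rw [← Finset.sum_div, Finset.sum_comm]
    congr 1
    apply Finset.sum_congr rfl
    intro l _
    rw [Finset.sum_sub_distrib]
    simp
  have h5 : (n : ℝ) * (k / 2) ≤ ∑ l ∈ range n, ((k : ℝ) - ∑ o, UB A t₀ L n o l 0 x₀) := by
    calc (n : ℝ) * (k / 2) = ∑ _l ∈ range n, ((k : ℝ) / 2) := by simp
      _ ≤ _ := by
        apply Finset.sum_le_sum
        intro l hl
        have := h3 l hl
        linarith
  rw [avE_apply, le_div_iff₀ hkr]
  have h6 : (n : ℝ) * (k / 2) / 2 ≤ 2 / D * ∑ o, avRs L o n (ecost A D t₀ z) := by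
    refine le_trans ?_ h2
    rw [h4]
    linarith
  have h7 : D * ((n : ℝ) * (k / 2) / 2) ≤ D * (2 / D * ∑ o, avRs L o n (ecost A D t₀ z)) :=
    mul_le_mul_of_nonneg_left h6 hD.le
  have h8 : D * (2 / D * ∑ o, avRs L o n (ecost A D t₀ z)) =
      2 * ∑ o, avRs L o n (ecost A D t₀ z) := by
    field_simp
  rw [h8] at h7
  linarith

theorem avEs_ecost_ge [Nonempty S] (hk : 0 < k) (A : Alg k S) {D : ℝ} (hD : 0 < D) {L : ℕ}
    (hL : D ≤ (L : ℝ)) (n : ℕ)
    (hn : 5 + 16 * ((n : ℝ) * (Real.log (Fintype.card S) + Real.log 6 + 2 * Real.log k)) ≤ k / 2)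
    (m : ℕ) : ∀ (t : ℕ) (z : Conf k × S), (m : ℝ) * (D * n / 8) ≤
      avEs k L n m (ecost A D t z) := by
  induction m with
  | zero =>
    intro t z
    have h : avEs k L n 0 (ecost A D t z) = 0 := ecost_nil A D t z
    rw [h]
    simp
  | succ m ih =>
    intro t z
    have e : avEs k L n (m + 1) = cmp (avE k L n) (avEs k L n m) := rfl
    rw [e, cmp_apply]
    have h1 : avE k L n (ecost A D t z + fun _ => (m : ℝ) * (D * n / 8)) ≤
        avE k L n (fun l => avEs k L n m (fun l' => ecost A D t z (l ++ l'))) := by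
      apply supp_avE
      intro l _
      have h2 : (fun l' => ecost A D t z (l ++ l')) = (fun _ => ecost A D t z l) +
          ∑ z', Ker A t l z z' • ecost A D (t + l.length) z' := by
        funext l'
        rw [ecost_append, Pi.add_apply, Finset.sum_apply]
        rfl
      rw [h2, map_add, mass_avEs hk, map_sum, Pi.add_apply]
      have h3 : ∑ z', Ker A t l z z' * ((m : ℝ) * (D * n / 8)) ≤
          ∑ z', avEs k L n m (Ker A t l z z' • ecost A D (t + l.length) z') := by
        apply Finset.sum_le_sum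
        intro z' _
        rw [map_smul, smul_eq_mul]
        exact mul_le_mul_of_nonneg_left (ih _ _) (Ker_nonneg _ _ _ _ _)
      rw [← Finset.sum_mul, Ker_sum, one_mul] at h3
      linarith
    rw [map_add, mass_avE hk] at h1
    have h4 := avE_ecost_ge hk A hD hL n hn t z
    push_cast
    linarith

end Pool.Agent.H40.PM
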