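import Mathlib

/-!
MP_40554b_lc: information-theoretic part of the memory lower bound.
-/

set_option autoImplicit false

open Finset Function

namespace Pool.Agent.H40.PM

variable {k : ℕ}

/-- `+1` if `ξ o = false`, `-1` otherwise -/
noncomputable def chi (o : Fin k) (ξ : Fin k → Bool) : ℝ := if ξ o then -1 else 1

theorem sum_exp_chi (b : Fin k → ℝ) :
    ∑ ξ : Fin k → Bool, Real.exp (∑ o, b o * chi o ξ) ≤
      2 ^ k * Real.exp ((∑ o, b o ^ 2) / 2) := by
  have h1 : ∀ ξ : Fin k → Bool, Real.exp (∑ o, b o * chi o ξ) =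
      ∏ o, Real.exp (b o * (if ξ o then -1 else 1)) := by
    intro ξ
    rw [Real.exp_sum]
    rfl
  have h2 : ∑ ξ : Fin k → Bool, ∏ o, Real.exp (b o * (if ξ o then -1 else 1)) =
      ∏ o, ∑ v : Bool, Real.exp (b o * (if v then -1 else 1)) := by
    rw [Finset.prod_univ_sum, Fintype.piFinset_univ]
  rw [Finset.sum_congr rfl (fun ξ _ => h1 ξ), h2]
  have h3 : ∀ o, ∑ v : Bool, Real.exp (b o * (if v then -1 else 1)) = 2 * Real.cosh (b o) := by
    intro o
    rw [Fintype.sum_bool, Real.cosh_eq]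
    simp
    ring
  rw [Finset.prod_congr rfl (fun o _ => h3 o), Finset.prod_mul_distrib, Finset.prod_const,
    Finset.card_univ, Fintype.card_fin]
  have h4 : ∏ o, Real.cosh (b o) ≤ Real.exp ((∑ o, b o ^ 2) / 2) := by
    rw [Finset.sum_div, Real.exp_sum]
    apply Finset.prod_le_prod
    · intro o _
      exact (Real.cosh_pos _).le
    · intro o _
      exact Real.cosh_le_exp_half_sq _
  exact mul_le_mul_of_nonneg_left h4 (by positivity)

theorem young {f a t : ℝ} (h0 : 0 ≤ f) (h1 : f ≤ 1) (ha : 0 < a) :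
    f * t ≤ -(f * Real.log a) - f + a * Real.exp t := by
  rcases h0.eq_or_lt with h | h
  · subst h
    have := Real.exp_pos t
    nlinarith
  · have hx : 0 < a * Real.exp t / f := by positivity
    have h2 := Real.log_le_sub_one_of_pos hx
    rw [Real.log_div (by positivity) h.ne', Real.log_mul ha.ne' (Real.exp_pos t).ne',
      Real.log_exp] at h2
    have h3 : f * (Real.log a + t - Real.log f) ≤ f * (a * Real.exp t / f - 1) :=
      mul_le_mul_of_nonneg_left h2 h.le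
    have h4 : f * (a * Real.exp t / f - 1) = a * Real.exp t - f := by
      field_simp
    have h5 : f * Real.log f ≤ 0 :=
      mul_nonpos_of_nonneg_of_nonpos h.le (Real.log_nonpos h.le h1)
    nlinarith

/-- flipping one coordinate -/
def flipE (o : Fin k) : (Fin k → Bool) ≃ (Fin k → Bool) where
  toFun ξ := update ξ o (!ξ o)
  invFun ξ := update ξ o (!ξ o)
  left_inv ξ := by
    ext j
    by_cases h : j = o
    · subst h; simp
    · simp [update_of_ne h]
  right_inv ξ := by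
    ext j
    by_cases h : j = o
    · subst h; simp
    · simp [update_of_ne h]

theorem sum_update (o : Fin k) (f : (Fin k → Bool) → ℝ) :
    ∑ ξ, f (update ξ o false) = ∑ ξ, f ξ * (1 + chi o ξ) := by
  have h1 : ∑ ξ : Fin k → Bool, (if ξ o then f (update ξ o (!ξ o)) else 0) =
      ∑ ξ : Fin k → Bool, (if ξ o then 0 else f ξ) := by
    rw [← (flipE o).sum_comp (fun ξ : Fin k → Bool => if ξ o then 0 else f ξ)]
    apply Finset.sum_congr rfl
    intro ξ _
    simp only [flipE, Equiv.coe_fn_mk, update_self]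
    cases h : ξ o <;> simp
  have h2 : ∀ ξ : Fin k → Bool, f (update ξ o false) =
      (if ξ o then f (update ξ o (!ξ o)) else 0) + (if ξ o then 0 else f ξ) := by
    intro ξ
    cases h : ξ o
    · have h5 : update ξ o false = ξ := by
        rw [← h]
        exact update_eq_self o ξ
      rw [h5]
      simp
    · simp
  have h3 : ∀ ξ : Fin k → Bool, f ξ * (1 + chi o ξ) =
      (if ξ o then 0 else f ξ) + (if ξ o then 0 else f ξ) := by
    intro ξ
    unfold chi
    cases h : ξ o <;> simp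
    ring
  rw [Finset.sum_congr rfl (fun ξ _ => h2 ξ), Finset.sum_congr rfl (fun ξ _ => h3 ξ),
    Finset.sum_add_distrib, Finset.sum_add_distrib, h1]

section OneRound

variable {Y : Type} [Fintype Y] (Q : (Fin k → Bool) → Y → ℝ)

/-- average over all patterns -/
noncomputable def m0 (y : Y) : ℝ := (∑ ξ, Q ξ y) / 2 ^ k

/-- average over all patterns which miss `o` -/
noncomputable def mo (o : Fin k) (y : Y) : ℝ := (∑ ξ, Q (update ξ o false) y) / 2 ^ k

/-- the relative deviation -/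
noncomputable def bb (o : Fin k) (y : Y) : ℝ := if m0 Q y = 0 then 0 else mo Q o y / m0 Q y - 1

variable {Q}

theorem m0_nonneg (h0 : ∀ ξ y, 0 ≤ Q ξ y) (y : Y) : 0 ≤ m0 Q y :=
  div_nonneg (Finset.sum_nonneg fun ξ _ => h0 ξ y) (by positivity)

theorem mo_nonneg (h0 : ∀ ξ y, 0 ≤ Q ξ y) (o : Fin k) (y : Y) : 0 ≤ mo Q o y :=
  div_nonneg (Finset.sum_nonneg fun ξ _ => h0 _ y) (by positivity)

theorem m0_sum (h1 : ∀ ξ, ∑ y, Q ξ y = 1) : ∑ y, m0 Q y = 1 := by
  unfold m0
  rw [← Finset.sum_div, Finset.sum_comm, Finset.sum_congr rfl (fun ξ _ => h1 ξ)]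
  simp

theorem mo_sum (h1 : ∀ ξ, ∑ y, Q ξ y = 1) (o : Fin k) : ∑ y, mo Q o y = 1 := by
  unfold mo
  rw [← Finset.sum_div, Finset.sum_comm, Finset.sum_congr rfl (fun ξ _ => h1 _)]
  simp

theorem m0_eq_zero (h0 : ∀ ξ y, 0 ≤ Q ξ y) {y : Y} (h : m0 Q y = 0) (ξ : Fin k → Bool) :
    Q ξ y = 0 := by
  unfold m0 at h
  have h2 : ∑ ξ, Q ξ y = 0 := by
    have : (2 : ℝ) ^ k ≠ 0 := by positivity
    field_simp at h
    simpa using h
  exact (Finset.sum_eq_zero_iff_of_nonneg (fun ξ _ => h0 ξ y)).mp h2 ξ (Finset.mem_univ _)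

theorem mo_eq (h0 : ∀ ξ y, 0 ≤ Q ξ y) (o : Fin k) (y : Y) :
    mo Q o y = m0 Q y * (1 + bb Q o y) := by
  unfold bb
  split_ifs with h
  · unfold mo
    rw [Finset.sum_congr rfl (fun ξ _ => m0_eq_zero h0 h _)]
    simp [h]
  · field_simp
    ring

theorem bb_ge (h0 : ∀ ξ y, 0 ≤ Q ξ y) (o : Fin k) (y : Y) : -1 ≤ bb Q o y := by
  unfold bb
  split_ifs with h
  · norm_num
  · have := div_nonneg (mo_nonneg h0 o y) (m0_nonneg h0 y)
    linarith

theorem bb_mean (h0 : ∀ ξ y, 0 ≤ Q ξ y) (h1 : ∀ ξ, ∑ y, Q ξ y = 1) (o : Fin k) :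
    ∑ y, m0 Q y * bb Q o y = 0 := by
  have h2 : ∀ y, m0 Q y * bb Q o y = mo Q o y - m0 Q y := by
    intro y
    rw [mo_eq h0]
    ring
  rw [Finset.sum_congr rfl (fun y _ => h2 y), Finset.sum_sub_distrib, mo_sum h1, m0_sum h1]
  ring

theorem level_one_pt (h0 : ∀ ξ y, 0 ≤ Q ξ y) (h1 : ∀ ξ, ∑ y, Q ξ y = 1) (y : Y) {w : ℝ}
    (hw0 : 0 ≤ w) (hw : m0 Q y ≠ 0 → 0 < w) :
    m0 Q y * (∑ o, bb Q o y ^ 2) ≤ 2 * (-(m0 Q y * Real.log w) - m0 Q y + w) := by
  by_cases hm : m0 Q y = 0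
  · simp [hm]
    exact hw0
  have hwp := hw hm
  set B : ℝ := ∑ o, bb Q o y ^ 2 with hB
  have hle : ∀ ξ, Q ξ y ≤ 1 := by
    intro ξ
    rw [← h1 ξ]
    exact Finset.single_le_sum (f := fun y => Q ξ y) (fun z _ => h0 ξ z) (Finset.mem_univ y)
  have hpos : (0 : ℝ) < 2 ^ k := by positivity
  -- the first moments
  have hmom : ∀ o, (∑ ξ, Q ξ y * chi o ξ) / 2 ^ k = m0 Q y * bb Q o y := by
    intro o
    have h2 : mo Q o y = m0 Q y + (∑ ξ, Q ξ y * chi o ξ) / 2 ^ k := by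
      unfold mo m0
      rw [sum_update o (fun ξ => Q ξ y), ← add_div, ← Finset.sum_add_distrib]
      congr 1
      apply Finset.sum_congr rfl
      intro ξ _
      ring
    have h3 := mo_eq h0 o y
    linarith [h2, h3, mul_add (m0 Q y) 1 (bb Q o y)]
  set a : ℝ := w * Real.exp (-(B / 2)) with ha
  have hap : 0 < a := by positivity
  have hla : Real.log a = Real.log w - B / 2 := by
    rw [ha, Real.log_mul hwp.ne' (Real.exp_pos _).ne', Real.log_exp]
    ring
  have hkey : ∀ ξ, Q ξ y * (∑ o, bb Q o y * chi o ξ) ≤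
      -(Q ξ y * Real.log a) - Q ξ y + a * Real.exp (∑ o, bb Q o y * chi o ξ) :=
    fun ξ => young (h0 ξ y) (hle ξ) hap
  have hsum := Finset.sum_le_sum (fun ξ (_ : ξ ∈ (Finset.univ : Finset (Fin k → Bool))) => hkey ξ)
  have hL : ∑ ξ : Fin k → Bool, Q ξ y * (∑ o, bb Q o y * chi o ξ) = 2 ^ k * (m0 Q y * B) := by
    have : ∀ ξ : Fin k → Bool, Q ξ y * (∑ o, bb Q o y * chi o ξ) =
        ∑ o, bb Q o y * (Q ξ y * chi o ξ) := by
      intro ξ
      rw [Finset.mul_sum]
      apply Finset.sum_congr rfl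
      intro o _
      ring
    rw [Finset.sum_congr rfl (fun ξ _ => this ξ), Finset.sum_comm, hB, Finset.mul_sum,
      Finset.mul_sum]
    apply Finset.sum_congr rfl
    intro o _
    rw [← Finset.mul_sum]
    have h5 := hmom o
    rw [div_eq_iff hpos.ne'] at h5
    rw [h5]
    ring
  have hR : ∑ ξ : Fin k → Bool, (-(Q ξ y * Real.log a) - Q ξ y +
      a * Real.exp (∑ o, bb Q o y * chi o ξ)) ≤
      2 ^ k * (-(m0 Q y * Real.log a) - m0 Q y + a * Real.exp (B / 2)) := by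
    rw [Finset.sum_add_distrib, Finset.sum_sub_distrib, Finset.sum_neg_distrib,
      ← Finset.sum_mul, ← Finset.mul_sum]
    have h6 := sum_exp_chi (fun o => bb Q o y)
    have h7 : (∑ ξ, Q ξ y) = 2 ^ k * m0 Q y := by
      unfold m0
      field_simp
    rw [h7]
    have h8 := mul_le_mul_of_nonneg_left h6 hap.le
    nlinarith [h8]
  have h9 : 2 ^ k * (m0 Q y * B) ≤
      2 ^ k * (-(m0 Q y * Real.log a) - m0 Q y + a * Real.exp (B / 2)) := by
    rw [← hL]
    exact hsum.trans hR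
  have h10 := le_of_mul_le_mul_left h9 hpos
  have h11 : a * Real.exp (B / 2) = w := by
    rw [ha, mul_assoc, ← Real.exp_add]
    simp
  rw [h11, hla] at h10
  nlinarith [h10]

theorem level_one (h0 : ∀ ξ y, 0 ≤ Q ξ y) (h1 : ∀ ξ, ∑ y, Q ξ y = 1) (w : Y → ℝ)
    (hw0 : ∀ y, 0 ≤ w y) (hws : ∑ y, w y ≤ 1) (hw : ∀ y, m0 Q y ≠ 0 → 0 < w y) :
    ∑ y, m0 Q y * (∑ o, bb Q o y ^ 2) ≤ 2 * ∑ y, m0 Q y * (-Real.log (w y)) := by
  have h2 := Finset.sum_le_sum (fun y (_ : y ∈ (Finset.univ : Finset Y)) =>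
    level_one_pt h0 h1 y (hw0 y) (hw y))
  refine h2.trans ?_
  rw [← Finset.mul_sum, Finset.sum_add_distrib, Finset.sum_sub_distrib, m0_sum h1,
    Finset.sum_neg_distrib]
  have h3 : ∑ y, m0 Q y * (-Real.log (w y)) = -∑ y, m0 Q y * Real.log (w y) := by
    rw [← Finset.sum_neg_distrib]
    apply Finset.sum_congr rfl
    intro y _
    ring
  rw [h3]
  linarith

end OneRound

/-! ### the likelihood functional -/

noncomputable def qq (l : ℝ) : ℝ := (l - 1) ^ 2 / (1 + l)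

theorem qq_step {l b : ℝ} (hl : 0 ≤ l) (hb : -1 ≤ b) :
    qq (l * (1 + b)) ≤ qq l + (l - 4 * l / (1 + l) ^ 2) * b + 4 * b ^ 2 := by
  have h1 : 0 < 1 + l := by linarith
  have h2 : 0 < 1 + l * (1 + b) := by
    have : 0 ≤ l * (1 + b) := mul_nonneg hl (by linarith)
    linarith
  have h3 : qq (l * (1 + b)) - qq l - (l - 4 * l / (1 + l) ^ 2) * b =
      4 * b ^ 2 * (l ^ 2 / ((1 + l) ^ 2 * (1 + l * (1 + b)))) := by
    unfold qq
    field_simp
    ring
  have h4 : l ^ 2 / ((1 + l) ^ 2 * (1 + l * (1 + b))) ≤ 1 := by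
    rw [div_le_one (by positivity)]
    have h5 : l ^ 2 ≤ (1 + l) ^ 2 := by nlinarith
    have h6 : 1 ≤ 1 + l * (1 + b) := by
      have : 0 ≤ l * (1 + b) := mul_nonneg hl (by linarith)
      linarith
    calc l ^ 2 ≤ (1 + l) ^ 2 * 1 := by linarith
      _ ≤ (1 + l) ^ 2 * (1 + l * (1 + b)) := by
        apply mul_le_mul_of_nonneg_left h6 (by positivity)
  have h7 : 4 * b ^ 2 * (l ^ 2 / ((1 + l) ^ 2 * (1 + l * (1 + b)))) ≤ 4 * b ^ 2 * 1 :=
    mul_le_mul_of_nonneg_left h4 (by positivity)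
  linarith

theorem le_qq {l : ℝ} (hl : 0 ≤ l) : l ≤ 5 + 2 * qq l := by
  unfold qq
  have h1 : 0 < 1 + l := by linarith
  have h3 : l - 5 ≤ 2 * ((l - 1) ^ 2 / (1 + l)) := by
    rw [← mul_div_assoc, le_div_iff₀ h1]
    nlinarith [sq_nonneg (l - 1)]
  linarith

theorem qq_nonneg {l : ℝ} (hl : 0 ≤ l) : 0 ≤ qq l := by
  unfold qq
  positivity

/-! ### chains -/

section Chain

variable {X : Type} [Fintype X] (Q : ℕ → (Fin k → Bool) → X → X → ℝ)

/-- Probability that the chain with missing point `o`, which is in `x` before round `r`, is in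
`A` after `i` rounds. -/
noncomputable def UU (A : X → Prop) [DecidablePred A] (o : Fin k) : ℕ → ℕ → X → ℝ
  | 0, _, x => if A x then 1 else 0
  | i + 1, r, x => ∑ y, mo (fun ξ => Q r ξ x) o y * UU A o i (r + 1) y

/-- the same for the null chain -/
noncomputable def QQ (A : X → Prop) [DecidablePred A] : ℕ → ℕ → X → ℝ
  | 0, _, x => if A x then 1 else 0
  | i + 1, r, x => ∑ y, m0 (fun ξ => Q r ξ x) y * QQ A i (r + 1) y

/-- accumulated squared deviations under the null chain -/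
noncomputable def VV (o : Fin k) : ℕ → ℕ → X → ℝ
  | 0, _, _ => 0
  | i + 1, r, x => ∑ y, m0 (fun ξ => Q r ξ x) y *
      (bb (fun ξ => Q r ξ x) o y ^ 2 + VV o i (r + 1) y)

variable {Q}

theorem UU_le (h0 : ∀ r ξ x y, 0 ≤ Q r ξ x y) (h1 : ∀ r ξ x, ∑ y, Q r ξ x y = 1)
    (A : X → Prop) [DecidablePred A] (o : Fin k) (i : ℕ) :
    ∀ r x (l : ℝ), 0 ≤ l → l * UU Q A o i r x ≤ 5 * QQ Q A i r x + 2 * (qq l + 4 * VV Q o i r x) := by
  induction i with
  | zero =>
    intro r x l hl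
    simp only [UU, QQ, VV]
    have h2 := le_qq hl
    have h3 := qq_nonneg hl
    split_ifs
    · linarith
    · linarith
  | succ i ih =>
    intro r x l hl
    simp only [UU, QQ, VV]
    have hb : ∀ y, -1 ≤ bb (fun ξ => Q r ξ x) o y := fun y => bb_ge (fun ξ y => h0 r ξ x y) o y
    have hm : ∀ y, 0 ≤ m0 (fun ξ => Q r ξ x) y := fun y => m0_nonneg (fun ξ y => h0 r ξ x y) y
    set c : ℝ := l - 4 * l / (1 + l) ^ 2 with hc
    have key : ∀ y, l * (mo (fun ξ => Q r ξ x) o y * UU Q A o i (r + 1) y) ≤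
        m0 (fun ξ => Q r ξ x) y * (5 * QQ Q A i (r + 1) y + 2 * (qq l + c *
          bb (fun ξ => Q r ξ x) o y + 4 * bb (fun ξ => Q r ξ x) o y ^ 2
          + 4 * VV Q o i (r + 1) y)) := by
      intro y
      rw [mo_eq (fun ξ y => h0 r ξ x y) o y]
      set b := bb (fun ξ => Q r ξ x) o y with hbdef
      have h2 := ih (r + 1) y (l * (1 + b)) (mul_nonneg hl (by linarith [hb y]))
      have h3 := qq_step hl (hb y)
      calc l * (m0 (fun ξ => Q r ξ x) y * (1 + b) * UU Q A o i (r + 1) y)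
          = m0 (fun ξ => Q r ξ x) y * (l * (1 + b) * UU Q A o i (r + 1) y) := by ring
        _ ≤ m0 (fun ξ => Q r ξ x) y * (5 * QQ Q A i (r + 1) y + 2 * (qq l + c * b + 4 * b ^ 2
          + 4 * VV Q o i (r + 1) y)) := by
          apply mul_le_mul_of_nonneg_left _ (hm y)
          rw [← hbdef] at h3
          linarith
    have hsum := Finset.sum_le_sum (fun y (_ : y ∈ (Finset.univ : Finset X)) => key y)
    rw [← Finset.mul_sum] at hsum
    refine hsum.trans (le_of_eq ?_)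
    have hmean := bb_mean (fun ξ y => h0 r ξ x y) (fun ξ => h1 r ξ x) o
    have htot := m0_sum (fun ξ => h1 r ξ x)
    have e1 : ∀ y, m0 (fun ξ => Q r ξ x) y * (5 * QQ Q A i (r + 1) y + 2 * (qq l + c *
          bb (fun ξ => Q r ξ x) o y + 4 * bb (fun ξ => Q r ξ x) o y ^ 2
          + 4 * VV Q o i (r + 1) y)) =
        5 * (m0 (fun ξ => Q r ξ x) y * QQ Q A i (r + 1) y) + 2 * qq l * m0 (fun ξ => Q r ξ x) y
          + 2 * c * (m0 (fun ξ => Q r ξ x) y * bb (fun ξ => Q r ξ x) o y)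
          + 8 * (m0 (fun ξ => Q r ξ x) y * (bb (fun ξ => Q r ξ x) o y ^ 2
            + VV Q o i (r + 1) y)) := by
      intro y
      ring
    rw [Finset.sum_congr rfl (fun y _ => e1 y), Finset.sum_add_distrib, Finset.sum_add_distrib,
      Finset.sum_add_distrib, ← Finset.mul_sum, ← Finset.mul_sum, ← Finset.mul_sum,
      ← Finset.mul_sum, hmean, htot]
    ring

theorem QQ_nonneg (h0 : ∀ r ξ x y, 0 ≤ Q r ξ x y) (A : X → Prop) [DecidablePred A] (i : ℕ) :
    ∀ r x, 0 ≤ QQ Q A i r x := by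
  induction i with
  | zero => intro r x; simp only [QQ]; split_ifs <;> norm_num
  | succ i ih =>
    intro r x
    simp only [QQ]
    exact Finset.sum_nonneg fun y _ =>
      mul_nonneg (m0_nonneg (fun ξ y => h0 r ξ x y) y) (ih _ _)

theorem sum_QQ_le (h0 : ∀ r ξ x y, 0 ≤ Q r ξ x y) (h1 : ∀ r ξ x, ∑ y, Q r ξ x y = 1)
    (A : Fin k → X → Prop) [∀ o, DecidablePred (A o)]
    (hA : ∀ x o o', A o x → A o' x → o = o') (i : ℕ) :
    ∀ r x, ∑ o, QQ Q (A o) i r x ≤ 1 := by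
  induction i with
  | zero =>
    intro r x
    simp only [QQ]
    by_cases h : ∃ o, A o x
    · obtain ⟨o, ho⟩ := h
      rw [Finset.sum_eq_single o]
      · split_ifs <;> norm_num
      · intro o' _ hne
        rw [if_neg]
        intro h'
        exact hne (hA x o' o h' ho)
      · intro h; exact absurd (Finset.mem_univ _) h
    · push Not at h
      rw [Finset.sum_eq_zero]
      · norm_num
      · intro o _
        rw [if_neg (h o)]
  | succ i ih =>
    intro r x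
    simp only [QQ]
    rw [Finset.sum_comm]
    calc ∑ y, ∑ o, m0 (fun ξ => Q r ξ x) y * QQ Q (A o) i (r + 1) y
        = ∑ y, m0 (fun ξ => Q r ξ x) y * ∑ o, QQ Q (A o) i (r + 1) y := by
          apply Finset.sum_congr rfl
          intro y _
          rw [Finset.mul_sum]
      _ ≤ ∑ y, m0 (fun ξ => Q r ξ x) y * 1 := by
          apply Finset.sum_le_sum
          intro y _
          exact mul_le_mul_of_nonneg_left (ih _ _) (m0_nonneg (fun ξ y => h0 r ξ x y) y)
      _ = 1 := by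
          rw [← Finset.sum_mul, m0_sum (fun ξ => h1 r ξ x), one_mul]

theorem sum_VV_le (h0 : ∀ r ξ x y, 0 ≤ Q r ξ x y) (h1 : ∀ r ξ x, ∑ y, Q r ξ x y = 1)
    (w : X → X → ℝ) (hw0 : ∀ x y, 0 ≤ w x y) (hws : ∀ x, ∑ y, w x y ≤ 1)
    (pot : X → ℝ) (a M : ℝ) (hM : ∀ x, pot x ≤ M)
    (hw : ∀ r ξ x y, Q r ξ x y ≠ 0 → 0 < w x y ∧ -Real.log (w x y) ≤ a + pot y - pot x)
    (i : ℕ) : ∀ r x, ∑ o, VV Q o i r x ≤ 2 * (i * a + M - pot x) := by
  have hpos : ∀ r x y, m0 (fun ξ => Q r ξ x) y ≠ 0 →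
      0 < w x y ∧ -Real.log (w x y) ≤ a + pot y - pot x := by
    intro r x y h
    by_contra hcon
    apply h
    unfold m0
    rw [Finset.sum_eq_zero]
    · simp
    · intro ξ _
      by_contra h2
      exact hcon (hw r ξ x y h2)
  induction i with
  | zero =>
    intro r x
    simp only [VV]
    simp
    linarith [hM x]
  | succ i ih =>
    intro r x
    simp only [VV]
    rw [Finset.sum_comm]
    have hm : ∀ y, 0 ≤ m0 (fun ξ => Q r ξ x) y := fun y => m0_nonneg (fun ξ y => h0 r ξ x y) y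
    have htot := m0_sum (fun ξ => h1 r ξ x)
    have e1 : ∀ y, ∑ o, m0 (fun ξ => Q r ξ x) y * (bb (fun ξ => Q r ξ x) o y ^ 2
        + VV Q o i (r + 1) y) = m0 (fun ξ => Q r ξ x) y * (∑ o, bb (fun ξ => Q r ξ x) o y ^ 2)
        + m0 (fun ξ => Q r ξ x) y * ∑ o, VV Q o i (r + 1) y := by
      intro y
      rw [← Finset.mul_sum, Finset.sum_add_distrib]
      ring
    rw [Finset.sum_congr rfl (fun y _ => e1 y), Finset.sum_add_distrib]
    have h2 := level_one (fun ξ y => h0 r ξ x y) (fun ξ => h1 r ξ x) (w x) (hw0 x) (hws x)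
      (fun y hy => (hpos r x y hy).1)
    have h3 : ∑ y, m0 (fun ξ => Q r ξ x) y * (-Real.log (w x y)) ≤
        ∑ y, m0 (fun ξ => Q r ξ x) y * (a + pot y - pot x) := by
      apply Finset.sum_le_sum
      intro y _
      by_cases hy : m0 (fun ξ => Q r ξ x) y = 0
      · simp [hy]
      · exact mul_le_mul_of_nonneg_left (hpos r x y hy).2 (hm y)
    have h4 : ∑ y, m0 (fun ξ => Q r ξ x) y * ∑ o, VV Q o i (r + 1) y ≤
        ∑ y, m0 (fun ξ => Q r ξ x) y * (2 * (i * a + M - pot y)) := by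
      apply Finset.sum_le_sum
      intro y _
      exact mul_le_mul_of_nonneg_left (ih _ _) (hm y)
    have e2 : 2 * ∑ y, m0 (fun ξ => Q r ξ x) y * (a + pot y - pot x) +
        ∑ y, m0 (fun ξ => Q r ξ x) y * (2 * (i * a + M - pot y)) =
        2 * (((i + 1 : ℕ) : ℝ) * a + M - pot x) := by
      rw [Finset.mul_sum, ← Finset.sum_add_distrib]
      have : ∀ y, 2 * (m0 (fun ξ => Q r ξ x) y * (a + pot y - pot x)) +
          m0 (fun ξ => Q r ξ x) y * (2 * (i * a + M - pot y)) =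
          m0 (fun ξ => Q r ξ x) y * (2 * (((i + 1 : ℕ) : ℝ) * a + M - pot x)) := by
        intro y
        push_cast
        ring
      rw [Finset.sum_congr rfl (fun y _ => this y), ← Finset.sum_mul, htot, one_mul]
    linarith

/-- The main information inequality. -/
theorem info_main (h0 : ∀ r ξ x y, 0 ≤ Q r ξ x y) (h1 : ∀ r ξ x, ∑ y, Q r ξ x y = 1)
    (w : X → X → ℝ) (hw0 : ∀ x y, 0 ≤ w x y) (hws : ∀ x, ∑ y, w x y ≤ 1)
    (pot : X → ℝ) (a M : ℝ) (hM : ∀ x, pot x ≤ M)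
    (hw : ∀ r ξ x y, Q r ξ x y ≠ 0 → 0 < w x y ∧ -Real.log (w x y) ≤ a + pot y - pot x)
    (A : Fin k → X → Prop) [∀ o, DecidablePred (A o)]
    (hA : ∀ x o o', A o x → A o' x → o = o') (i r : ℕ) (x : X) :
    ∑ o, UU Q (A o) o i r x ≤ 5 + 16 * (i * a + M - pot x) := by
  have h2 : ∀ o, UU Q (A o) o i r x ≤ 5 * QQ Q (A o) i r x + 8 * VV Q o i r x := by
    intro o
    have := UU_le h0 h1 (A o) o i r x 1 zero_le_one
    have hq : qq 1 = 0 := by unfold qq; norm_num
    rw [hq] at this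
    linarith
  have h3 := Finset.sum_le_sum (fun o (_ : o ∈ (Finset.univ : Finset (Fin k))) => h2 o)
  rw [Finset.sum_add_distrib, ← Finset.mul_sum, ← Finset.mul_sum] at h3
  have h4 := sum_QQ_le h0 h1 A hA i r x
  have h5 := sum_VV_le h0 h1 w hw0 hws pot a M hM hw i r x
  linarith

end Chain

end Pool.Agent.H40.PM
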